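import Mathlib

open scoped Topology ContDiff Manifold Matrix Matrix.Norms.Elementwise

namespace Pool.Agent.W_MP_061f3a_gt

noncomputable section

/-! ### Coordinates: metric, Christoffel symbols, curvature -/

/-- Coordinate space of dimension `d`. -/
abbrev Coord (d : ℕ) := EuclideanSpace ℝ (Fin d)

/-- The `l`-th standard basis vector of the coordinate space. -/
def ebasis {d : ℕ} (l : Fin d) : Coord d := EuclideanSpace.single l (1 : ℝ)

/-- The matrix of metric coefficients at `u`. -/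
def gram {d : ℕ} (g : Coord d → Coord d → Coord d → ℝ) (u : Coord d) :
    Matrix (Fin d) (Fin d) ℝ :=
  Matrix.of fun k l => g u (ebasis k) (ebasis l)

/-- Raising an index: the vector with components `∑ l, (g⁻¹)_{kl} α_l`. -/
def raise {d : ℕ} (g : Coord d → Coord d → Coord d → ℝ) (u : Coord d) (α : Fin d → ℝ) :
    Coord d :=
  ∑ k, (∑ l, (gram g u)⁻¹ k l * α l) • ebasis k

/-- The Levi-Civita connection of the metric `g` on constant vector fields:
`Γ(v,w)` is the vector with `g(Γ(v,w), e_l) = 1/2 (∂_v g(w,e_l) + ∂_w g(v,e_l) - ∂_l g(v,w))`. -/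
def chr {d : ℕ} (g : Coord d → Coord d → Coord d → ℝ) (u v w : Coord d) : Coord d :=
  raise g u fun l =>
    (1 / 2) * (fderiv ℝ (fun x => g x w (ebasis l)) u v + fderiv ℝ (fun x => g x v (ebasis l)) u w
      - fderiv ℝ (fun x => g x v w) u (ebasis l))

/-- The Riemannian curvature tensor `R(v,w)z = ∇_v ∇_w z - ∇_w ∇_v z - ∇_[v,w] z` of the metric
`g` at `u`, for constant vector fields `v, w, z`. -/
def curv {d : ℕ} (g : Coord d → Coord d → Coord d → ℝ) (u v w z : Coord d) : Coord d :=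
  fderiv ℝ (fun x => chr g x w z) u v - fderiv ℝ (fun x => chr g x v z) u w
    + chr g u v (chr g u w z) - chr g u w (chr g u v z)

/-! ### The two Grassmannians as orbits of projections -/

/-- Complex `(2+m)×(2+m)` matrices. -/
abbrev Mat (m : ℕ) := Matrix (Fin 2 ⊕ Fin m) (Fin 2 ⊕ Fin m) ℂ

/-- The diagonal matrix `diag(1,1,ε,…,ε)`. -/
def sig (m : ℕ) (ε : ℝ) : Mat m := Matrix.fromBlocks 1 0 0 ((ε : ℂ) • 1)

/-- The projection `diag(1,1,0,…,0)`. -/
def base (m : ℕ) : Mat m := Matrix.fromBlocks 1 0 0 0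

/-- Adjoint with respect to the hermitian form with matrix `diag(1,1,ε,…,ε)`. -/
def adj {m : ℕ} (ε : ℝ) (X : Mat m) : Mat m := sig m ε * Xᴴ * sig m ε

/-- The Grassmannian, as the orbit of `diag(1,1,0,…,0)` under conjugation by
`SU(m+2)` (`ε = 1`) or `SU(2,m)` (`ε = -1`). -/
def Grass (m : ℕ) (ε : ℝ) : Set (Mat m) :=
  {P | ∃ g : Mat m, gᴴ * sig m ε * g = sig m ε ∧ g.det = 1 ∧ P = g * base m * g⁻¹}

/-- The tangent space of the Grassmannian at `P`. -/
def Tan {m : ℕ} (ε : ℝ) (P : Mat m) : Set (Mat m) :=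
  {X | adj ε X = X ∧ P * X + X * P = X}

/-- The invariant metric `c ε Re tr(XY)`. -/
def metric {m : ℕ} (c ε : ℝ) (X Y : Mat m) : ℝ := c * ε * (X * Y).trace.re

/-- The fibre of the quaternionic Kähler structure at `P`: the endomorphisms
`J_q : X ↦ X q - q X` for `q` in the `su(2)` factor of the isotropy algebra at `P`. -/
def Quat {m : ℕ} (ε : ℝ) (P : Mat m) : Set (Mat m) :=
  {q | adj ε q = -q ∧ P * q = q ∧ q * P = q ∧ q.trace = 0}

/-- The endomorphism attached to `q`. -/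
def Jop {m : ℕ} (q X : Mat m) : Mat m := X * q - q * X

/-- `q 0, q 1, q 2` is an orthonormal frame `J₁, J₂, J₃` of the quaternionic structure at `P`:
`J_a² = -1` and `J_a J_b = - J_b J_a` for `a ≠ b` on the tangent space. -/
def IsFrame {m : ℕ} (ε : ℝ) (P : Mat m) (q : Fin 3 → Mat m) : Prop :=
  (∀ a, q a ∈ Quat ε P) ∧ (∀ a, ∀ X ∈ Tan ε P, Jop (q a) (Jop (q a) X) = -X) ∧
    ∀ a b, a ≠ b → ∀ X ∈ Tan ε P, Jop (q a) (Jop (q b) X) = -Jop (q b) (Jop (q a) X)

/-! ### Hypersurfaces in local coordinates -/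

/-- The metric induced by `f`. -/
def indMetric {m d : ℕ} (c ε : ℝ) (f : Coord d → Mat m) (u v w : Coord d) : ℝ :=
  metric c ε (fderiv ℝ f u v) (fderiv ℝ f u w)

/-- The tangential part of `Z` at `f u`, in coordinates. -/
def tang {m d : ℕ} (c ε : ℝ) (f : Coord d → Mat m) (u : Coord d) (Z : Mat m) : Coord d :=
  raise (indMetric c ε f) u fun l => metric c ε Z (fderiv ℝ f u (ebasis l))

/-- The structure vector `ξ = -J N`. -/
def xiVec {m d : ℕ} (c ε : ℝ) (f n : Coord d → Mat m) (q : Mat m) (u : Coord d) : Coord d :=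
  tang c ε f u (-Jop q (n u))

/-- The shape operator. -/
def shape {m d : ℕ} (c ε : ℝ) (f n : Coord d → Mat m) (u v : Coord d) : Coord d :=
  tang c ε f u (-fderiv ℝ n u v)

/-- The tangential part `φ v` of `J v`. -/
def phiOp {m d : ℕ} (c ε : ℝ) (f : Coord d → Mat m) (q : Mat m) (u v : Coord d) : Coord d :=
  tang c ε f u (Jop q (fderiv ℝ f u v))

/-- The `(κ, μ, ν)` nullity identity at `u`. -/
def NullityAt {m d : ℕ} (c ε : ℝ) (f n : Coord d → Mat m) (q : Mat m) (κ μ ν : ℝ)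
    (u : Coord d) : Prop :=
  ∀ X Y : Coord d,
    curv (indMetric c ε f) u X Y (xiVec c ε f n q u) =
      indMetric c ε f u Y (xiVec c ε f n q u) •
        (κ • X + μ • shape c ε f n u X + ν • phiOp c ε f q u (shape c ε f n u X)) -
      indMetric c ε f u X (xiVec c ε f n q u) •
        (κ • Y + μ • shape c ε f n u Y + ν • phiOp c ε f q u (shape c ε f n u Y))

/-! ### Real hypersurfaces -/

section Manifold

variable {M : Type*} [TopologicalSpace M] {d : ℕ} [ChartedSpace (Coord d) M]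

/-- `F` read in the preferred chart of `M` at `p`. -/
def inChart {m : ℕ} (F : M → Mat m) (p : M) : Coord d → Mat m :=
  F ∘ (extChartAt 𝓘(ℝ, Coord d) p).symm

/-- `F : M → Mat m` is a smooth immersion with values in the Grassmannian. -/
structure IsImmersion {m : ℕ} (ε : ℝ) (F : M → Mat m) : Prop where
  smooth : ∀ i j, ContMDiff 𝓘(ℝ, Coord d) 𝓘(ℝ, ℂ) ∞ fun x => F x i j
  inj : ∀ p : M, Function.Injective (fderiv ℝ (inChart (d := d) F p) (extChartAt 𝓘(ℝ, Coord d) p p))
  mem : ∀ p, F p ∈ Grass m ε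

/-- `n` is a smooth unit normal field of `F` near `p`. -/
structure IsUnitNormal {m : ℕ} (c ε : ℝ) (F n : M → Mat m) (p : M) : Prop where
  smooth : ∀ i j, ContMDiffAt 𝓘(ℝ, Coord d) 𝓘(ℝ, ℂ) ∞ (fun x => n x i j) p
  tangent : ∀ᶠ x in 𝓝 p, n x ∈ Tan ε (F x)
  unit : ∀ᶠ x in 𝓝 p, metric c ε (n x) (n x) = 1
  normal : ∀ᶠ u in 𝓝 (extChartAt 𝓘(ℝ, Coord d) p p), ∀ v : Coord d,
    metric c ε (inChart (d := d) n p u) (fderiv ℝ (inChart (d := d) F p) u v) = 0

end Manifold

end

end Pool.Agent.W_MP_061f3a_gt
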