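import Mathlib
import Pool.Agent.W_MP_061f3a_gt.Defs

open scoped Topology ContDiff Matrix Matrix.Norms.Elementwise

set_option maxSynthPendingDepth 3

namespace Pool.Agent.W_MP_061f3a_gt

noncomputable section

variable {m : ℕ} {c ε : ℝ}

theorem eps_sq (hε : ε = 1 ∨ ε = -1) : (ε : ℂ) * ε = 1 := by
  rcases hε with h | h <;> subst h <;> norm_num

theorem sig_sig (hε : ε = 1 ∨ ε = -1) : sig m ε * sig m ε = 1 := by
  unfold sig
  rw [Matrix.fromBlocks_multiply]
  have e4 : ε * ε = 1 := by rcases hε with h | h <;> subst h <;> norm_num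
  rw [← Matrix.fromBlocks_one]
  congr 1 <;> simp [smul_smul, e4]

theorem trace_fb (A : Matrix (Fin 2) (Fin 2) ℂ) (B : Matrix (Fin 2) (Fin m) ℂ)
    (C : Matrix (Fin m) (Fin 2) ℂ) (D : Matrix (Fin m) (Fin m) ℂ) :
    (Matrix.fromBlocks A B C D).trace = A.trace + D.trace := by
  simp [Matrix.trace, Fintype.sum_sum_type]

theorem sig_conj : (sig m ε)ᴴ = sig m ε := by
  unfold sig
  rw [Matrix.fromBlocks_conjTranspose]
  simp

theorem adj_mul (hε : ε = 1 ∨ ε = -1) (X Y : Mat m) : adj ε (X * Y) = adj ε Y * adj ε X := by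
  unfold adj
  rw [Matrix.conjTranspose_mul]
  calc sig m ε * (Yᴴ * Xᴴ) * sig m ε = sig m ε * Yᴴ * (1 : Mat m) * Xᴴ * sig m ε := by
        simp only [mul_assoc, one_mul]
    _ = _ := by rw [← sig_sig hε]; simp only [mul_assoc]

theorem adj_add (X Y : Mat m) : adj ε (X + Y) = adj ε X + adj ε Y := by
  unfold adj
  rw [Matrix.conjTranspose_add, mul_add, add_mul]

theorem adj_neg (X : Mat m) : adj ε (-X) = -adj ε X := by
  unfold adj
  rw [Matrix.conjTranspose_neg, mul_neg, neg_mul]

theorem adj_sub (X Y : Mat m) : adj ε (X - Y) = adj ε X - adj ε Y := by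
  rw [sub_eq_add_neg, adj_add, adj_neg, ← sub_eq_add_neg]

theorem adj_one (hε : ε = 1 ∨ ε = -1) : adj ε (1 : Mat m) = 1 := by
  unfold adj
  rw [Matrix.conjTranspose_one, mul_one, sig_sig hε]

theorem adj_real_smul (r : ℝ) (X : Mat m) : adj ε (r • X) = r • adj ε X := by
  unfold adj
  rw [Matrix.conjTranspose_smul]
  simp

theorem adj_base : adj ε (base m) = base m := by
  unfold adj sig base
  rw [Matrix.fromBlocks_conjTranspose, Matrix.fromBlocks_multiply, Matrix.fromBlocks_multiply]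
  simp

theorem base_base : base m * base m = base m := by
  unfold base
  rw [Matrix.fromBlocks_multiply]
  simp

/-- a frame matrix for a point of the Grassmannian -/
structure IsFr (ε : ℝ) (P g h : Mat m) : Prop where
  hg : h * g = 1
  gh : g * h = 1
  adjg : adj ε g = h
  adjh : adj ε h = g
  eq : P = g * base m * h

theorem exists_fr (hε : ε = 1 ∨ ε = -1) {P : Mat m} (hP : P ∈ Grass m ε) :
    ∃ g h : Mat m, IsFr ε P g h := by
  obtain ⟨g, hg, hdet, rfl⟩ := hP
  have hu : IsUnit g.det := by rw [hdet]; exact isUnit_one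
  have h1 : adj ε g * g = 1 := by
    unfold adj
    calc sig m ε * gᴴ * sig m ε * g = sig m ε * (gᴴ * sig m ε * g) := by simp only [mul_assoc]
      _ = 1 := by rw [hg, sig_sig hε]
  have h2 : adj ε g = g⁻¹ := (Matrix.inv_eq_left_inv h1).symm
  have h3 : adj ε (adj ε g) = g := by
    unfold adj
    rw [Matrix.conjTranspose_mul, Matrix.conjTranspose_mul, Matrix.conjTranspose_conjTranspose,
      sig_conj]
    calc sig m ε * (sig m ε * (g * sig m ε)) * sig m ε
        = (sig m ε * sig m ε) * g * (sig m ε * sig m ε) := by simp only [mul_assoc]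
      _ = g := by rw [sig_sig hε, one_mul, mul_one]
  exact ⟨g, g⁻¹, Matrix.nonsing_inv_mul g hu, Matrix.mul_nonsing_inv g hu, h2, by rw [← h2]; exact h3,
    rfl⟩

/-- tangent vector with lower left block `B` -/
def tv (ε : ℝ) (g h : Mat m) (B : Matrix (Fin m) (Fin 2) ℂ) : Mat m :=
  g * Matrix.fromBlocks 0 ((ε : ℂ) • Bᴴ) B 0 * h

/-- the lower left block -/
def low (g h : Mat m) (X : Mat m) : Matrix (Fin m) (Fin 2) ℂ := (h * X * g).toBlocks₂₁

variable {P g h : Mat m}

theorem IsFr.conj (H : IsFr ε P g h) (X : Mat m) : g * (h * X * g) * h = X := by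
  calc g * (h * X * g) * h = (g * h) * X * (g * h) := by simp only [mul_assoc]
    _ = X := by rw [H.gh, one_mul, mul_one]

theorem IsFr.conj' (H : IsFr ε P g h) (X : Mat m) : h * (g * X * h) * g = X := by
  calc h * (g * X * h) * g = (h * g) * X * (h * g) := by simp only [mul_assoc]
    _ = X := by rw [H.hg, one_mul, mul_one]

theorem IsFr.idem (H : IsFr ε P g h) : P * P = P := by
  rw [H.eq]
  calc g * base m * h * (g * base m * h) = g * base m * (h * g) * base m * h := by
        simp only [mul_assoc]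
    _ = g * (base m * base m) * h := by rw [H.hg]; simp only [mul_assoc, one_mul]
    _ = _ := by rw [base_base]

theorem IsFr.adjP (hε : ε = 1 ∨ ε = -1) (H : IsFr ε P g h) : adj ε P = P := by
  rw [H.eq, adj_mul hε, adj_mul hε, H.adjg, H.adjh, adj_base]
  simp only [mul_assoc]

theorem low_tv (H : IsFr ε P g h) (B : Matrix (Fin m) (Fin 2) ℂ) : low g h (tv ε g h B) = B := by
  unfold low tv
  rw [H.conj']
  simp

theorem tv_low (hε : ε = 1 ∨ ε = -1) (H : IsFr ε P g h) {X : Mat m} (hX : X ∈ Tan ε P) :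
    X = tv ε g h (low g h X) := by
  obtain ⟨h1, h2⟩ := hX
  set Y := h * X * g with hY
  have hXY : X = g * Y * h := (H.conj X).symm
  have hadj : adj ε Y = Y := by
    rw [hY, adj_mul hε, adj_mul hε, H.adjg, H.adjh, h1]
    simp only [mul_assoc]
  have hpy : base m * Y + Y * base m = Y := by
    have e1 : h * (P * X + X * P) * g = Y := by rw [h2]
    have e2 : h * (P * X) * g = base m * Y := by
      rw [H.eq, hY]
      calc h * (g * base m * h * X) * g = (h * g) * base m * h * X * g := by simp only [mul_assoc]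
        _ = _ := by rw [H.hg]; simp only [mul_assoc, one_mul]
    have e3 : h * (X * P) * g = Y * base m := by
      rw [H.eq, hY]
      calc h * (X * (g * base m * h)) * g = h * X * g * base m * (h * g) := by simp only [mul_assoc]
        _ = _ := by rw [H.hg]; simp only [mul_assoc, mul_one]
    rw [mul_add, add_mul, e2, e3] at e1
    exact e1
  have hYb : Y = Matrix.fromBlocks Y.toBlocks₁₁ Y.toBlocks₁₂ Y.toBlocks₂₁ Y.toBlocks₂₂ :=
    (Matrix.fromBlocks_toBlocks Y).symm
  set A11 := Y.toBlocks₁₁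
  set A12 := Y.toBlocks₁₂
  set A21 := Y.toBlocks₂₁
  set A22 := Y.toBlocks₂₂
  have k1 : Matrix.fromBlocks (A11 + A11) A12 A21 0 = Matrix.fromBlocks A11 A12 A21 A22 := by
    have := hpy
    rw [hYb] at this
    unfold base at this
    rw [Matrix.fromBlocks_multiply, Matrix.fromBlocks_multiply, Matrix.fromBlocks_add] at this
    simpa using this
  rw [Matrix.fromBlocks_inj] at k1
  obtain ⟨k11, -, -, k22⟩ := k1
  have k11' : A11 = 0 := by simpa using k11
  have k2 : A12 = (ε : ℂ) • A21ᴴ := by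
    have := hadj
    rw [hYb] at this
    unfold adj sig at this
    rw [Matrix.fromBlocks_conjTranspose, Matrix.fromBlocks_multiply, Matrix.fromBlocks_multiply,
      Matrix.fromBlocks_inj] at this
    have h12 := this.2.1
    simpa using h12.symm
  have hlow : low g h X = A21 := rfl
  unfold tv
  rw [hlow, ← k2, hXY, hYb, k11', ← k22]

theorem tv_add (A B : Matrix (Fin m) (Fin 2) ℂ) : tv ε g h (A + B) = tv ε g h A + tv ε g h B := by
  unfold tv
  rw [← add_mul, ← mul_add, Matrix.fromBlocks_add, Matrix.conjTranspose_add, smul_add]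
  simp

theorem tv_smul (r : ℝ) (A : Matrix (Fin m) (Fin 2) ℂ) : tv ε g h (r • A) = r • tv ε g h A := by
  unfold tv
  have : Matrix.fromBlocks (0 : Matrix (Fin 2) (Fin 2) ℂ) ((ε : ℂ) • (r • A)ᴴ) (r • A) 0 =
      r • Matrix.fromBlocks 0 ((ε : ℂ) • Aᴴ) A 0 := by
    rw [Matrix.fromBlocks_smul, Matrix.conjTranspose_smul, smul_zero, smul_zero, star_trivial,
      smul_comm r]
  rw [this, Matrix.mul_smul, Matrix.smul_mul]

theorem tv_mem (hε : ε = 1 ∨ ε = -1) (H : IsFr ε P g h) (B : Matrix (Fin m) (Fin 2) ℂ) :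
    tv ε g h B ∈ Tan ε P := by
  have hε' := eps_sq hε
  constructor
  · unfold tv
    rw [adj_mul hε, adj_mul hε, H.adjg, H.adjh]
    have : adj ε (Matrix.fromBlocks 0 ((ε : ℂ) • Bᴴ) B 0) = Matrix.fromBlocks 0 ((ε : ℂ) • Bᴴ) B 0 := by
      unfold adj sig
      rw [Matrix.fromBlocks_conjTranspose, Matrix.fromBlocks_multiply, Matrix.fromBlocks_multiply]
      have e4 : ε * ε = 1 := by rcases hε with h | h <;> subst h <;> norm_num
      simp [smul_smul, e4]
    rw [this]
    simp only [mul_assoc]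
  · unfold tv
    rw [H.eq]
    have e1 : g * base m * h * (g * Matrix.fromBlocks 0 ((ε : ℂ) • Bᴴ) B 0 * h) =
        g * (base m * Matrix.fromBlocks 0 ((ε : ℂ) • Bᴴ) B 0) * h := by
      calc _ = g * base m * (h * g) * Matrix.fromBlocks 0 ((ε : ℂ) • Bᴴ) B 0 * h := by
            simp only [mul_assoc]
        _ = _ := by rw [H.hg]; simp only [mul_assoc, one_mul]
    have e2 : (g * Matrix.fromBlocks 0 ((ε : ℂ) • Bᴴ) B 0 * h) * (g * base m * h) =
        g * (Matrix.fromBlocks 0 ((ε : ℂ) • Bᴴ) B 0 * base m) * h := by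
      calc _ = g * Matrix.fromBlocks 0 ((ε : ℂ) • Bᴴ) B 0 * (h * g) * base m * h := by
            simp only [mul_assoc]
        _ = _ := by rw [H.hg]; simp only [mul_assoc, one_mul]
    rw [e1, e2, ← add_mul, ← mul_add]
    congr 2
    unfold base
    rw [Matrix.fromBlocks_multiply, Matrix.fromBlocks_multiply, Matrix.fromBlocks_add]
    simp

theorem metric_comm (X Y : Mat m) : metric c ε X Y = metric c ε Y X := by
  unfold metric
  rw [Matrix.trace_mul_comm]

theorem metric_tv (hε : ε = 1 ∨ ε = -1) (H : IsFr ε P g h) (A B : Matrix (Fin m) (Fin 2) ℂ) :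
    metric c ε (tv ε g h A) (tv ε g h B) = 2 * c * (Aᴴ * B).trace.re := by
  unfold metric tv
  have e1 : (g * Matrix.fromBlocks 0 ((ε : ℂ) • Aᴴ) A 0 * h) *
      (g * Matrix.fromBlocks 0 ((ε : ℂ) • Bᴴ) B 0 * h) =
      g * (Matrix.fromBlocks 0 ((ε : ℂ) • Aᴴ) A 0 * Matrix.fromBlocks 0 ((ε : ℂ) • Bᴴ) B 0) * h := by
    calc _ = g * Matrix.fromBlocks 0 ((ε : ℂ) • Aᴴ) A 0 * (h * g) *
          Matrix.fromBlocks 0 ((ε : ℂ) • Bᴴ) B 0 * h := by simp only [mul_assoc]
      _ = _ := by rw [H.hg]; simp only [mul_assoc, one_mul]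
  rw [e1, Matrix.fromBlocks_multiply, Matrix.trace_mul_comm, ← mul_assoc, H.hg, one_mul,
    trace_fb]
  have e2 : (A * ((ε : ℂ) • Bᴴ)).trace = (ε : ℂ) * star ((Aᴴ * B).trace) := by
    rw [Matrix.mul_smul, Matrix.trace_smul, smul_eq_mul, ← Matrix.trace_conjTranspose,
      Matrix.conjTranspose_mul, Matrix.conjTranspose_conjTranspose, Matrix.trace_mul_comm]
  have e3 : ((ε : ℂ) • Aᴴ * B).trace = (ε : ℂ) * (Aᴴ * B).trace := by
    rw [Matrix.smul_mul, Matrix.trace_smul, smul_eq_mul]
  have e4 : ε * ε = 1 := by rcases hε with h | h <;> subst h <;> norm_num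
  simp only [zero_add, mul_zero, add_zero]
  rw [e2, e3]
  simp only [Complex.add_re, Complex.mul_re, Complex.ofReal_re, Complex.ofReal_im, zero_mul,
    sub_zero, Complex.star_def, Complex.conj_re]
  linear_combination 2 * c * (Aᴴ * B).trace.re * e4

theorem metric_tv_self (hε : ε = 1 ∨ ε = -1) (hc : 0 < c) (H : IsFr ε P g h)
    {X : Mat m} (hX : X ∈ Tan ε P) (h0 : metric c ε X X = 0) : X = 0 := by
  have e := tv_low hε H hX
  set B := low g h X with hB
  rw [e, metric_tv hε H] at h0
  have h1 : (Bᴴ * B).trace.re = 0 := by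
    rcases mul_eq_zero.mp h0 with h | h
    · exact absurd h (by positivity)
    · exact h
  have h2 : (Bᴴ * B).trace.re = ∑ j, ∑ i, ‖B i j‖ ^ 2 := by
    simp only [Matrix.trace, Matrix.diag, Matrix.mul_apply, Matrix.conjTranspose_apply,
      Complex.re_sum]
    refine Finset.sum_congr rfl fun j _ => Finset.sum_congr rfl fun i _ => ?_
    rw [Complex.star_def, ← Complex.normSq_eq_conj_mul_self, Complex.ofReal_re,
      Complex.normSq_eq_norm_sq]
  rw [h2] at h1
  have h3 : B = 0 := by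
    ext i j
    have h4 := (Finset.sum_eq_zero_iff_of_nonneg (fun j _ => Finset.sum_nonneg
      fun i _ => sq_nonneg _)).mp h1 j (Finset.mem_univ _)
    have h5 := (Finset.sum_eq_zero_iff_of_nonneg (fun i _ => sq_nonneg _)).mp h4 i
      (Finset.mem_univ _)
    simpa using h5
  rw [e, h3]
  unfold tv
  simp

end

end Pool.Agent.W_MP_061f3a_gt
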