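import Mathlib
import Pool.Agent.W_MP_061f3a_gt.Alg

open scoped Topology ContDiff Matrix Matrix.Norms.Elementwise

set_option maxSynthPendingDepth 3

namespace Pool.Agent.W_MP_061f3a_gt

noncomputable section

variable {m : ℕ} {c ε : ℝ} {P g h : Mat m}

theorem Tan.add {X Y : Mat m} (hX : X ∈ Tan ε P) (hY : Y ∈ Tan ε P) : X + Y ∈ Tan ε P := by
  refine ⟨by rw [adj_add, hX.1, hY.1], ?_⟩
  have h1 := hX.2
  have h2 := hY.2
  calc P * (X + Y) + (X + Y) * P = (P * X + X * P) + (P * Y + Y * P) := by noncomm_ring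
    _ = X + Y := by rw [h1, h2]

theorem Tan.neg {X : Mat m} (hX : X ∈ Tan ε P) : -X ∈ Tan ε P := by
  refine ⟨by rw [adj_neg, hX.1], ?_⟩
  have h1 := hX.2
  calc P * (-X) + (-X) * P = -(P * X + X * P) := by noncomm_ring
    _ = -X := by rw [h1]

theorem Tan.sub {X Y : Mat m} (hX : X ∈ Tan ε P) (hY : Y ∈ Tan ε P) : X - Y ∈ Tan ε P := by
  rw [sub_eq_add_neg]; exact Tan.add hX (Tan.neg hY)

theorem Tan.smul {X : Mat m} (r : ℝ) (hX : X ∈ Tan ε P) : r • X ∈ Tan ε P := by
  refine ⟨by rw [adj_real_smul, hX.1], ?_⟩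
  rw [Matrix.mul_smul, Matrix.smul_mul, ← smul_add, hX.2]

/-- `P` commutes with products of two tangent vectors -/
theorem Tan.comm2 {X Y : Mat m} (hX : X ∈ Tan ε P) (hY : Y ∈ Tan ε P) :
    P * (X * Y) = X * Y * P := by
  have h1 := hX.2
  have h2 := hY.2
  have h3 : P * X = X - X * P := eq_sub_of_add_eq h1
  have h4 : P * Y = Y - Y * P := eq_sub_of_add_eq h2
  calc P * (X * Y) = (P * X) * Y := by rw [mul_assoc]
    _ = X * Y - X * (P * Y) := by rw [h3]; noncomm_ring
    _ = X * Y * P := by rw [h4]; noncomm_ring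

/-- double bracket -/
def brk (X Y Z : Mat m) : Mat m := (X * Y - Y * X) * Z - Z * (X * Y - Y * X)

theorem brk_mem (hε : ε = 1 ∨ ε = -1) {X Y Z : Mat m} (hX : X ∈ Tan ε P) (hY : Y ∈ Tan ε P)
    (hZ : Z ∈ Tan ε P) : brk X Y Z ∈ Tan ε P := by
  have c1 := Tan.comm2 hX hY
  have c2 := Tan.comm2 hY hX
  constructor
  · unfold brk
    rw [adj_sub, adj_mul hε, adj_mul hε, adj_sub, adj_mul hε, adj_mul hε, hX.1, hY.1, hZ.1]
    noncomm_ring
  · have hK : P * (X * Y - Y * X) = (X * Y - Y * X) * P := by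
      rw [mul_sub, c1, c2, sub_mul]
    unfold brk
    set K := X * Y - Y * X with hKdef
    calc P * (K * Z - Z * K) + (K * Z - Z * K) * P
        = (P * K) * Z - P * Z * K + K * (Z * P) - Z * (K * P) := by noncomm_ring
      _ = (K * P) * Z - P * Z * K + K * (Z * P) - Z * (P * K) := by rw [hK]
      _ = K * (P * Z + Z * P) - (P * Z + Z * P) * K := by noncomm_ring
      _ = K * Z - Z * K := by rw [hZ.2]

/-- the part of the second derivative normal to the Grassmannian -/
def sg (P X Y : Mat m) : Mat m := (1 - P - P) * (X * Y + Y * X)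

theorem sub_sg_mem (hε : ε = 1 ∨ ε = -1) (hP : P * P = P) (hPa : adj ε P = P) {X Y W : Mat m}
    (hX : X ∈ Tan ε P) (hY : Y ∈ Tan ε P) (hWa : adj ε W = W)
    (hW : P * W + W * P + X * Y + Y * X = W) : W - sg P X Y ∈ Tan ε P := by
  have c1 := Tan.comm2 hX hY
  have c2 := Tan.comm2 hY hX
  have hS : P * (X * Y + Y * X) = (X * Y + Y * X) * P := by
    rw [mul_add, c1, c2, add_mul]
  have hSa : adj ε (X * Y + Y * X) = X * Y + Y * X := by
    rw [adj_add, adj_mul hε, adj_mul hε, hX.1, hY.1, add_comm]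
  have hW' : P * W + W * P + (X * Y + Y * X) = W := by rw [← add_assoc]; exact hW
  unfold sg
  set S := X * Y + Y * X with hSdef
  constructor
  · rw [adj_sub, hWa, adj_mul hε, hSa, adj_sub, adj_sub, adj_one hε, hPa]
    congr 1
    calc S * (1 - P - P) = S - S * P - S * P := by noncomm_ring
      _ = S - P * S - P * S := by rw [hS]
      _ = _ := by noncomm_ring
  · calc P * (W - (1 - P - P) * S) + (W - (1 - P - P) * S) * P
        = (P * W + W * P) - P * S + P * P * S + P * P * S - (S * P) + P * (S * P) + P * (S * P) := by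
          noncomm_ring
      _ = (P * W + W * P) - P * S + P * P * S + P * P * S - (P * S) + P * (P * S) + P * (P * S) := by
          rw [← hS]
      _ = (P * W + W * P) - P * S + P * P * S + P * P * S - (P * S) + P * P * S + P * P * S := by
          noncomm_ring
      _ = (P * W + W * P + S) - (S - P * S - P * S) := by rw [hP]; noncomm_ring
      _ = W - (1 - P - P) * S := by rw [hW']; noncomm_ring

theorem metric_sg {X Y Z : Mat m}
    (hX : X ∈ Tan ε P) (hY : Y ∈ Tan ε P) (hZ : Z ∈ Tan ε P) : metric c ε (sg P X Y) Z = 0 := by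
  have c1 := Tan.comm2 hX hY
  have c2 := Tan.comm2 hY hX
  have hS : P * (X * Y + Y * X) = (X * Y + Y * X) * P := by
    rw [mul_add, c1, c2, add_mul]
  have hZ2 := hZ.2
  have h1 : (sg P X Y * Z).trace = 0 := by
    unfold sg
    set S := X * Y + Y * X with hSdef
    have e1 : ((1 - P - P) * S * Z).trace = (S * Z).trace - (S * (P * Z)).trace - (S * (P * Z)).trace := by
      have : (1 - P - P) * S * Z = S * Z - S * (P * Z) - S * (P * Z) := by
        calc (1 - P - P) * S * Z = S * Z - (P * S) * Z - (P * S) * Z := by noncomm_ring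
          _ = S * Z - (S * P) * Z - (S * P) * Z := by rw [hS]
          _ = _ := by noncomm_ring
      rw [this, Matrix.trace_sub, Matrix.trace_sub]
    have e2 : (S * (Z * P)).trace = (S * (P * Z)).trace := by
      calc (S * (Z * P)).trace = ((S * Z) * P).trace := by rw [mul_assoc]
        _ = (P * (S * Z)).trace := by rw [Matrix.trace_mul_comm]
        _ = ((P * S) * Z).trace := by rw [mul_assoc]
        _ = ((S * P) * Z).trace := by rw [hS]
        _ = _ := by rw [mul_assoc]
    have e3 : (S * Z).trace = (S * (P * Z)).trace + (S * (Z * P)).trace := by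
      rw [← Matrix.trace_add, ← mul_add, hZ2]
    rw [e1, e3, e2]
    ring
  unfold metric
  rw [h1]
  simp

theorem metric_sg_sg (hP : P * P = P) {X Y Z V : Mat m}
    (hX : X ∈ Tan ε P) (hY : Y ∈ Tan ε P) (hZ : Z ∈ Tan ε P) :
    metric c ε (sg P Y Z) (sg P X V) - metric c ε (sg P X Z) (sg P Y V) =
      metric c ε (brk X Y Z) V := by
  have key : ∀ {A B C D : Mat m}, A ∈ Tan ε P → B ∈ Tan ε P →
      (sg P A B * sg P C D).trace = ((A * B + B * A) * (C * D + D * C)).trace := by
    intro A B C D hA hB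
    have c1 := Tan.comm2 hA hB
    have c2 := Tan.comm2 hB hA
    have hS : P * (A * B + B * A) = (A * B + B * A) * P := by
      rw [mul_add, c1, c2, add_mul]
    unfold sg
    set S := A * B + B * A
    set R := C * D + D * C
    congr 1
    calc (1 - P - P) * S * ((1 - P - P) * R)
        = S * R - (P * S) * R - (P * S) * R - (S * P) * R - S * P * R + P * (S * P) * R
          + P * (S * P) * R + P * (S * P) * R + P * (S * P) * R := by noncomm_ring
      _ = S * R - (P * S) * R - (P * S) * R - (P * S) * R - (P * S) * R + P * (P * S) * R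
          + P * (P * S) * R + P * (P * S) * R + P * (P * S) * R := by rw [← hS]
      _ = S * R - (P * S) * R - (P * S) * R - (P * S) * R - (P * S) * R + (P * P) * S * R
          + (P * P) * S * R + (P * P) * S * R + (P * P) * S * R := by noncomm_ring
      _ = S * R := by rw [hP]; noncomm_ring
  have cyc : ∀ A B C D : Mat m, (A * B * C * D).trace = (B * C * D * A).trace := by
    intro A B C D
    rw [Matrix.trace_mul_comm, ← mul_assoc, ← mul_assoc, Matrix.trace_mul_comm, ← mul_assoc,
      ← mul_assoc, Matrix.trace_mul_comm, ← mul_assoc, ← mul_assoc]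
  have main : (sg P Y Z * sg P X V).trace - (sg P X Z * sg P Y V).trace = (brk X Y Z * V).trace := by
    rw [key hY hZ, key hX hZ]
    unfold brk
    have e1 : (Y * Z + Z * Y) * (X * V + V * X) =
      Y * Z * X * V + Y * Z * V * X + Z * Y * X * V + Z * Y * V * X := by noncomm_ring
    have e2 : (X * Z + Z * X) * (Y * V + V * Y) =
      X * Z * Y * V + X * Z * V * Y + Z * X * Y * V + Z * X * V * Y := by noncomm_ring
    have e3 : ((X * Y - Y * X) * Z - Z * (X * Y - Y * X)) * V =
      X * Y * Z * V - Y * X * Z * V - Z * X * Y * V + Z * Y * X * V := by noncomm_ring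
    rw [e1, e2, e3]
    simp only [Matrix.trace_add, Matrix.trace_sub]
    rw [cyc X Y Z V, cyc Y X Z V, cyc X Z Y V, cyc Y Z X V]
    ring
  unfold metric
  rw [← main, Complex.sub_re]
  ring

theorem Jop_mem (hε : ε = 1 ∨ ε = -1) {q X : Mat m} (hq : q ∈ Quat ε P) (hX : X ∈ Tan ε P) :
    Jop q X ∈ Tan ε P := by
  obtain ⟨q1, q2, q3, -⟩ := hq
  have hX2 := hX.2
  have e1 : P * X = X - X * P := eq_sub_of_add_eq hX2
  have e2 : X * P = X - P * X := eq_sub_of_add_eq' hX2
  have e3 : P * X * q = 0 := by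
    calc P * X * q = X * q - X * (P * q) := by rw [e1]; noncomm_ring
      _ = 0 := by rw [q2]; noncomm_ring
  have e4 : q * X * P = 0 := by
    calc q * X * P = q * (X * P) := by rw [mul_assoc]
      _ = q * X - (q * P) * X := by rw [e2]; noncomm_ring
      _ = 0 := by rw [q3]; noncomm_ring
  constructor
  · unfold Jop
    rw [adj_sub, adj_mul hε, adj_mul hε, hX.1, q1]
    noncomm_ring
  · unfold Jop
    calc P * (X * q - q * X) + (X * q - q * X) * P
        = P * X * q - (P * q) * X + X * (q * P) - q * X * P := by noncomm_ring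
      _ = X * q - q * X := by rw [e3, e4, q2, q3]; noncomm_ring

theorem metric_Jop_self (q X : Mat m) : metric c ε (Jop q X) X = 0 := by
  unfold metric Jop
  have : ((X * q - q * X) * X).trace = 0 := by
    rw [sub_mul, Matrix.trace_sub, Matrix.trace_mul_comm (X * q) X, mul_assoc q X X,
      Matrix.trace_mul_comm q (X * X), mul_assoc X X q, sub_self]
  rw [this]
  simp

theorem low_Jop (H : IsFr ε P g h) {q : Mat m} (hq : q ∈ Quat ε P)
    (B : Matrix (Fin m) (Fin 2) ℂ) :
    ∃ Q : Matrix (Fin 2) (Fin 2) ℂ, low g h (Jop q (tv ε g h B)) = B * Q := by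
  obtain ⟨q1, q2, q3, -⟩ := hq
  set q' := h * q * g with hq'
  have hqq : q = g * q' * h := (H.conj q).symm
  have b1 : base m * q' = q' := by
    have : h * (P * q) * g = q' := by rw [q2]
    rw [← this, H.eq]
    calc base m * (h * (g * base m * h * q) * g) = base m * ((h * g) * base m * h * q * g) := by
          simp only [mul_assoc]
      _ = (base m * base m) * h * q * g := by rw [H.hg]; simp only [mul_assoc, one_mul]
      _ = base m * h * q * g := by rw [base_base]
      _ = (h * g) * (base m * h * q * g) := by rw [H.hg, one_mul]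
      _ = _ := by simp only [mul_assoc]
  have b2 : q' * base m = q' := by
    have : h * (q * P) * g = q' := by rw [q3]
    rw [← this, H.eq]
    calc (h * (q * (g * base m * h)) * g) * base m = h * q * g * base m * (h * g) * base m := by
          simp only [mul_assoc]
      _ = h * q * g * (base m * base m) := by rw [H.hg]; simp only [mul_assoc, one_mul]
      _ = h * q * g * base m := by rw [base_base]
      _ = (h * q * g * base m) * (h * g) := by rw [H.hg, mul_one]
      _ = _ := by simp only [mul_assoc]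
  have hb : q' = Matrix.fromBlocks q'.toBlocks₁₁ 0 0 0 := by
    have hb0 : q' = Matrix.fromBlocks q'.toBlocks₁₁ q'.toBlocks₁₂ q'.toBlocks₂₁ q'.toBlocks₂₂ :=
      (Matrix.fromBlocks_toBlocks q').symm
    set A11 := q'.toBlocks₁₁
    set A12 := q'.toBlocks₁₂
    set A21 := q'.toBlocks₂₁
    set A22 := q'.toBlocks₂₂
    have k1 : base m * q' * base m = q' := by rw [b1, b2]
    have k2 : base m * q' * base m = Matrix.fromBlocks A11 0 0 0 := by
      rw [hb0]
      unfold base
      rw [Matrix.fromBlocks_multiply, Matrix.fromBlocks_multiply]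
      simp
    rw [← k2, k1]
  refine ⟨q'.toBlocks₁₁, ?_⟩
  set Q := q'.toBlocks₁₁
  have e1 : h * Jop q (tv ε g h B) * g =
      Matrix.fromBlocks 0 ((ε : ℂ) • Bᴴ) B 0 * q' - q' * Matrix.fromBlocks 0 ((ε : ℂ) • Bᴴ) B 0 := by
    unfold Jop tv
    rw [hqq]
    set T := Matrix.fromBlocks 0 ((ε : ℂ) • Bᴴ) B 0
    calc h * (g * T * h * (g * q' * h) - g * q' * h * (g * T * h)) * g
        = (h * g) * T * (h * g) * q' * (h * g) - (h * g) * q' * (h * g) * T * (h * g) := by
          noncomm_ring
      _ = T * q' - q' * T := by rw [H.hg]; noncomm_ring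
  unfold low
  rw [e1, hb, Matrix.fromBlocks_multiply, Matrix.fromBlocks_multiply, sub_eq_add_neg,
    Matrix.fromBlocks_neg, Matrix.fromBlocks_add, Matrix.toBlocks_fromBlocks₂₁]
  simp

theorem low_brk (H : IsFr ε P g h) (A B C : Matrix (Fin m) (Fin 2) ℂ) :
    low g h (brk (tv ε g h A) (tv ε g h B) (tv ε g h C)) =
      (ε : ℂ) • ((A * Bᴴ - B * Aᴴ) * C - C * (Aᴴ * B - Bᴴ * A)) := by
  have e1 : h * brk (tv ε g h A) (tv ε g h B) (tv ε g h C) * g =
      brk (Matrix.fromBlocks 0 ((ε : ℂ) • Aᴴ) A 0) (Matrix.fromBlocks 0 ((ε : ℂ) • Bᴴ) B 0)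
        (Matrix.fromBlocks 0 ((ε : ℂ) • Cᴴ) C 0) := by
    unfold brk tv
    set T := Matrix.fromBlocks 0 ((ε : ℂ) • Aᴴ) A 0
    set U := Matrix.fromBlocks 0 ((ε : ℂ) • Bᴴ) B 0
    set V := Matrix.fromBlocks 0 ((ε : ℂ) • Cᴴ) C 0
    calc h * ((g * T * h * (g * U * h) - g * U * h * (g * T * h)) * (g * V * h) -
            g * V * h * (g * T * h * (g * U * h) - g * U * h * (g * T * h))) * g
        = (h * g) * (T * (h * g) * U - U * (h * g) * T) * (h * g) * V * (h * g)
          - (h * g) * V * (h * g) * (T * (h * g) * U - U * (h * g) * T) * (h * g) := by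
          noncomm_ring
      _ = _ := by rw [H.hg]; noncomm_ring
  unfold low
  rw [e1]
  unfold brk
  simp only [Matrix.fromBlocks_multiply, sub_eq_add_neg, Matrix.fromBlocks_neg,
    Matrix.fromBlocks_add, Matrix.toBlocks_fromBlocks₂₁]
  simp only [Matrix.zero_mul, Matrix.mul_zero, zero_add, add_zero, neg_zero, Matrix.smul_mul,
    Matrix.mul_smul, smul_add, smul_neg, Matrix.mul_add, Matrix.add_mul, Matrix.mul_neg,
    Matrix.neg_mul]

end

end Pool.Agent.W_MP_061f3a_gt
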