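import Mathlib

open scoped Matrix ComplexConjugate

namespace Pool.Agent.W_MP_061f3a_gt

theorem exists_vu (ω : (Fin 2 → ℂ) → ℝ) (hadd : ∀ x y, ω (x + y) = ω x + ω y)
    (hsmul : ∀ (r : ℝ) x, ω (r • x) = r * ω x) :
    ∃ v w : Fin 2 → ℂ, v ≠ 0 ∧ w ≠ 0 ∧ conj (v 0) * w 0 + conj (v 1) * w 1 = 0 ∧
      ω v = 0 ∧ ω (Complex.I • v) = 0 ∧ ω w = 0 := by
  set e0 : Fin 2 → ℂ := ![1, 0] with he0
  set e1 : Fin 2 → ℂ := ![0, 1] with he1
  set α : ℂ := ω e0 - Complex.I * ω (Complex.I • e0) with hα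
  set β : ℂ := ω e1 - Complex.I * ω (Complex.I • e1) with hβ
  have hform : ∀ x : Fin 2 → ℂ, ω x = (α * x 0 + β * x 1).re := by
    intro x
    have hx : x = (x 0).re • e0 + (x 0).im • (Complex.I • e0) + (x 1).re • e1 +
        (x 1).im • (Complex.I • e1) := by
      funext i
      fin_cases i
      · simp [he0, he1]
      · simp [he0, he1]
    conv_lhs => rw [hx]
    rw [hadd, hadd, hadd, hsmul, hsmul, hsmul, hsmul]
    simp [hα, hβ]
    ring
  by_cases h : α = 0 ∧ β = 0
  · have h0 : ∀ x, ω x = 0 := by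
      intro x
      rw [hform, h.1, h.2]
      simp
    refine ⟨e0, e1, ?_, ?_, ?_, h0 _, h0 _, h0 _⟩
    · intro h
      have := congrFun h 0
      simp [he0] at this
    · intro h
      have := congrFun h 1
      simp [he1] at this
    · simp [he0, he1]
  · refine ⟨![β, -α], ![Complex.I * conj α, Complex.I * conj β], ?_, ?_, ?_, ?_, ?_, ?_⟩
    · intro h'
      have h0 := congrFun h' 0
      have h1 := congrFun h' 1
      simp at h0 h1
      exact h ⟨h1, h0⟩
    · intro h'
      have h0 := congrFun h' 0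
      have h1 := congrFun h' 1
      simp at h0 h1
      exact h ⟨h0, h1⟩
    · simp
      ring
    · rw [hform]
      have : α * (![β, -α] : Fin 2 → ℂ) 0 + β * (![β, -α] : Fin 2 → ℂ) 1 = 0 := by
        simp
        ring
      rw [this]
      simp
    · rw [hform]
      have : α * (Complex.I • (![β, -α] : Fin 2 → ℂ)) 0 +
          β * (Complex.I • (![β, -α] : Fin 2 → ℂ)) 1 = 0 := by
        simp
        ring
      rw [this]
      simp
    · rw [hform]
      simp
      ring

theorem final_alg {m : ℕ} (B B' : Matrix (Fin m) (Fin 2) ℂ) (s : ℝ) (hs : s ≠ 0)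
    (ω : (Fin 2 → ℂ) → ℝ) (hadd : ∀ x y, ω (x + y) = ω x + ω y)
    (hsmul : ∀ (r : ℝ) x, ω (r • x) = r * ω x)
    (hkey : ∀ x y : Fin 2 → ℂ, ω x = 0 → ω y = 0 → ∃ t : ℝ, ∀ r j,
      (s : ℂ) * ((∑ k, B' r k * x k) * conj (y j) - (∑ k, B' r k * y k) * conj (x j)) =
        (t : ℂ) * B r j) : B' = 0 := by
  obtain ⟨v, w, hv, hw, hvw, hov, hoiv, how⟩ := exists_vu ω hadd hsmul
  obtain ⟨t1, ht1⟩ := hkey w v how hov
  obtain ⟨t2, ht2⟩ := hkey w (Complex.I • v) how hoiv
  have hsC : (s : ℂ) ≠ 0 := by exact_mod_cast hs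
  have hwv : conj (w 0) * v 0 + conj (w 1) * v 1 = 0 := by
    have := congrArg conj hvw
    simp at this
    rw [← this]
    ring
  have norm_ne : ∀ x : Fin 2 → ℂ, x ≠ 0 → conj (x 0) * x 0 + conj (x 1) * x 1 ≠ 0 := by
    intro x hx h
    apply hx
    have h1 : conj (x 0) * x 0 = ((Complex.normSq (x 0) : ℝ) : ℂ) := by
      rw [Complex.normSq_eq_conj_mul_self]
    have h2 : conj (x 1) * x 1 = ((Complex.normSq (x 1) : ℝ) : ℂ) := by
      rw [Complex.normSq_eq_conj_mul_self]
    rw [h1, h2] at h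
    have h3 : Complex.normSq (x 0) + Complex.normSq (x 1) = 0 := by exact_mod_cast h
    have h4 := Complex.normSq_nonneg (x 0)
    have h5 := Complex.normSq_nonneg (x 1)
    have h6 : Complex.normSq (x 0) = 0 := by linarith
    have h7 : Complex.normSq (x 1) = 0 := by linarith
    funext i
    fin_cases i
    · exact Complex.normSq_eq_zero.mp h6
    · exact Complex.normSq_eq_zero.mp h7
  have hnw := norm_ne w hw
  have hnv := norm_ne v hv
  ext r j
  -- values on `v` and `w`
  set βw := ∑ k, B' r k * w k with hβw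
  set βv := ∑ k, B' r k * v k with hβv
  have hβiv : ∑ k, B' r k * (Complex.I • v) k = Complex.I * βv := by
    rw [hβv, Finset.mul_sum]
    refine Finset.sum_congr rfl fun k _ => ?_
    simp
    ring
  have a0 := ht1 r 0
  have a1 := ht1 r 1
  have b0 := ht2 r 0
  have b1 := ht2 r 1
  rw [hβiv] at b0 b1
  simp only [Pi.smul_apply, smul_eq_mul, map_mul, Complex.conj_I] at b0 b1
  -- contract
  have c1 : -(s : ℂ) * βv * (conj (w 0) * w 0 + conj (w 1) * w 1) = t1 * (B r 0 * w 0 + B r 1 * w 1) := by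
    linear_combination w 0 * a0 + w 1 * a1 - (s : ℂ) * βw * hvw
  have c2 : (s : ℂ) * βw * (conj (v 0) * v 0 + conj (v 1) * v 1) = t1 * (B r 0 * v 0 + B r 1 * v 1) := by
    linear_combination v 0 * a0 + v 1 * a1 + (s : ℂ) * βv * hwv
  have c3 : -(s : ℂ) * Complex.I * βv * (conj (w 0) * w 0 + conj (w 1) * w 1) =
      t2 * (B r 0 * w 0 + B r 1 * w 1) := by
    linear_combination w 0 * b0 + w 1 * b1 + (s : ℂ) * Complex.I * βw * hvw
  have c4 : -(s : ℂ) * Complex.I * βw * (conj (v 0) * v 0 + conj (v 1) * v 1) =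
      t2 * (B r 0 * v 0 + B r 1 * v 1) := by
    linear_combination v 0 * b0 + v 1 * b1 + (s : ℂ) * Complex.I * βv * hwv
  have real_cases : ∀ (a z : ℂ), (a = 1 ∨ a = -1) → (t2 : ℂ) * z = a * Complex.I * (t1 * z) →
      (t1 : ℂ) * z = 0 := by
    intro a z ha h
    have h1 : ((t2 : ℂ) - a * Complex.I * t1) * z = 0 := by linear_combination h
    rcases mul_eq_zero.mp h1 with h2 | h2
    · have h3 : t1 = 0 := by
        have := congrArg Complex.im h2
        rcases ha with ha | ha <;> subst ha <;> simpa using this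
      rw [h3]; simp
    · rw [h2, mul_zero]
  have d1 : (t1 : ℂ) * (B r 0 * w 0 + B r 1 * w 1) = 0 :=
    real_cases 1 _ (Or.inl rfl) (by linear_combination (-1 : ℂ) * c3 + Complex.I * c1)
  have d2 : (t1 : ℂ) * (B r 0 * v 0 + B r 1 * v 1) = 0 :=
    real_cases (-1) _ (Or.inr rfl) (by linear_combination (-1 : ℂ) * c4 - Complex.I * c2)
  have hβv0 : βv = 0 := by
    rw [d1] at c1
    rcases mul_eq_zero.mp c1 with h | h
    · rcases mul_eq_zero.mp h with h | h
      · exact absurd (neg_eq_zero.mp h) hsC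
      · exact h
    · exact absurd h hnw
  have hβw0 : βw = 0 := by
    rw [d2] at c2
    rcases mul_eq_zero.mp c2 with h | h
    · rcases mul_eq_zero.mp h with h | h
      · exact absurd h hsC
      · exact h
    · exact absurd h hnv
  rw [hβv, Fin.sum_univ_two] at hβv0
  rw [hβw, Fin.sum_univ_two] at hβw0
  -- the determinant of `v, w` is not zero
  have hdet : v 0 * w 1 - v 1 * w 0 ≠ 0 := by
    intro h
    apply hw
    have k0 : (conj (v 0) * v 0 + conj (v 1) * v 1) * w 0 = 0 := by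
      linear_combination v 0 * hvw - conj (v 1) * h
    have k1 : (conj (v 0) * v 0 + conj (v 1) * v 1) * w 1 = 0 := by
      linear_combination v 1 * hvw + conj (v 0) * h
    funext i
    fin_cases i
    · exact (mul_eq_zero.mp k0).resolve_left hnv
    · exact (mul_eq_zero.mp k1).resolve_left hnv
  have k0 : (v 0 * w 1 - v 1 * w 0) * B' r 0 = 0 := by
    linear_combination w 1 * hβv0 - v 1 * hβw0
  have k1 : (v 0 * w 1 - v 1 * w 0) * B' r 1 = 0 := by
    linear_combination v 0 * hβw0 - w 0 * hβv0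
  fin_cases j
  · exact (mul_eq_zero.mp k0).resolve_left hdet
  · exact (mul_eq_zero.mp k1).resolve_left hdet

end Pool.Agent.W_MP_061f3a_gt
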