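import Mathlib
import Pool.Agent.W_MP_061f3a_gt.Defs

open scoped Topology ContDiff

set_option maxSynthPendingDepth 3

namespace Pool.Agent.W_MP_061f3a_gt

noncomputable section

section Raise

variable {d : ℕ}

/-- raising an index inverts the metric -/
theorem raise_spec (g : Coord d → Coord d → Coord d → ℝ) (u : Coord d)
    (hsymm : ∀ v w, g u v w = g u w v)
    (hadd : ∀ v v' w, g u (v + v') w = g u v w + g u v' w)
    (hsmul : ∀ (a : ℝ) v w, g u (a • v) w = a * g u v w)
    (hdet : (gram g u).det ≠ 0) (L : Coord d →ₗ[ℝ] ℝ) (t : Coord d) :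
    g u (raise g u fun l => L (ebasis l)) t = L t := by
  classical
  have ht : t = ∑ j, t j • (ebasis j : Coord d) := by
    have h := (EuclideanSpace.basisFun (Fin d) ℝ).sum_repr t
    simp only [EuclideanSpace.basisFun_repr, EuclideanSpace.basisFun_apply] at h
    exact h.symm
  have hsum1 : ∀ (s : Finset (Fin d)) (c : Fin d → ℝ) (w : Coord d),
      g u (∑ k ∈ s, c k • ebasis k) w = ∑ k ∈ s, c k * g u (ebasis k) w := by
    intro s c w
    induction s using Finset.induction_on with
    | empty =>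
      have := hsmul 0 0 w
      simpa using this
    | insert a s ha ih =>
      rw [Finset.sum_insert ha, Finset.sum_insert ha, hadd, ih, hsmul]
  have hsum2 : ∀ (s : Finset (Fin d)) (c : Fin d → ℝ) (w : Coord d),
      g u w (∑ k ∈ s, c k • ebasis k) = ∑ k ∈ s, c k * g u w (ebasis k) := by
    intro s c w
    rw [hsymm, hsum1]
    exact Finset.sum_congr rfl fun k _ => by rw [hsymm]
  set G := gram g u with hG
  have hGsymm : G.transpose = G := by
    ext k l
    simp only [hG, gram, Matrix.transpose_apply, Matrix.of_apply]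
    exact hsymm _ _
  have hinv : G⁻¹ * G = 1 := Matrix.nonsing_inv_mul G (isUnit_iff_ne_zero.mpr hdet)
  have hinv' : G * G⁻¹ = 1 := Matrix.mul_nonsing_inv G (isUnit_iff_ne_zero.mpr hdet)
  have hGij : ∀ k j, g u (ebasis k) (ebasis j) = G k j := fun k j => rfl
  have hL : L t = ∑ j, t j * L (ebasis j) := by
    conv_lhs => rw [ht]
    rw [map_sum]
    exact Finset.sum_congr rfl fun j _ => by rw [map_smul, smul_eq_mul]
  rw [hL]
  conv_lhs => rw [ht]
  rw [hsum2]
  refine Finset.sum_congr rfl fun j _ => ?_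
  congr 1
  unfold raise
  rw [hsum1]
  simp only [hGij]
  have hkey : ∀ l, ∑ k, G⁻¹ k l * G k j = (1 : Matrix (Fin d) (Fin d) ℝ) j l := by
    intro l
    rw [← hinv', Matrix.mul_apply]
    refine Finset.sum_congr rfl fun k _ => ?_
    have : G k j = G j k := by
      conv_lhs => rw [← hGsymm]
      rfl
    rw [this, mul_comm]
  calc ∑ k, (∑ l, G⁻¹ k l * L (ebasis l)) * G k j
      = ∑ l, (∑ k, G⁻¹ k l * G k j) * L (ebasis l) := by
        simp only [Finset.sum_mul]
        rw [Finset.sum_comm]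
        exact Finset.sum_congr rfl fun l _ => Finset.sum_congr rfl fun k _ => by ring
    _ = L (ebasis j) := by
        simp only [hkey, Matrix.one_apply, ite_mul, one_mul, zero_mul, Finset.sum_ite_eq,
          Finset.mem_univ, if_true]

end Raise

section Gauss

variable {H : Type*} [NormedAddCommGroup H] [NormedSpace ℝ H] {d : ℕ}

/-- the metric induced by `f` from the bilinear form `b` -/
def ind (b : H →L[ℝ] H →L[ℝ] ℝ) (f : Coord d → H) (x v w : Coord d) : ℝ :=
  b (fderiv ℝ f x v) (fderiv ℝ f x w)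

/-- iterated directional derivative -/
def dd (f : Coord d → H) (x v w : Coord d) : H := fderiv ℝ (fun y => fderiv ℝ f y w) x v

/-- second fundamental form -/
def sff (b : H →L[ℝ] H →L[ℝ] ℝ) (f : Coord d → H) (x v w : Coord d) : H :=
  dd f x v w - fderiv ℝ f x (chr (ind b f) x v w)

variable {f : Coord d → H} {u : Coord d} {n k : WithTop ℕ∞}

theorem cd_dir (hf : ContDiffAt ℝ n f u) (hk : k + 1 ≤ n) (w : Coord d) :
    ContDiffAt ℝ k (fun y => fderiv ℝ f y w) u :=
  (hf.fderiv_right hk).clm_apply contDiffAt_const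

theorem dd_symm (hf : ContDiffAt ℝ 2 f u) (v w : Coord d) : dd f u v w = dd f u w v := by
  have h1 : IsSymmSndFDerivAt ℝ f u := hf.isSymmSndFDerivAt (by simp)
  have h2 : DifferentiableAt ℝ (fderiv ℝ f) u :=
    (hf.fderiv_right (m := 1) (by norm_num)).differentiableAt (by norm_num)
  have h3 : ∀ v w, dd f u v w = fderiv ℝ (fderiv ℝ f) u v w := by
    intro v w
    unfold dd
    rw [fderiv_clm_apply h2 (differentiableAt_const w)]
    simp
  rw [h3, h3]
  exact h1 v w

theorem cd_ind (b : H →L[ℝ] H →L[ℝ] ℝ) (hf : ContDiffAt ℝ n f u) (hk : k + 1 ≤ n)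
    (v w : Coord d) : ContDiffAt ℝ k (fun y => ind b f y v w) u := by
  have h1 : ContDiffAt ℝ k (fun y => b (fderiv ℝ f y v)) u :=
    b.contDiff.contDiffAt.comp u (cd_dir hf hk v)
  exact h1.clm_apply (cd_dir hf hk w)

theorem cd_det {A : Coord d → Matrix (Fin d) (Fin d) ℝ}
    (hA : ∀ i j, ContDiffAt ℝ k (fun y => A y i j) u) : ContDiffAt ℝ k (fun y => (A y).det) u := by
  simp only [Matrix.det_apply']
  refine ContDiffAt.sum fun σ _ => ?_
  refine contDiffAt_const.mul ?_
  exact contDiffAt_prod fun i _ => hA _ _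

theorem cd_adj {A : Coord d → Matrix (Fin d) (Fin d) ℝ}
    (hA : ∀ i j, ContDiffAt ℝ k (fun y => A y i j) u) (i j : Fin d) :
    ContDiffAt ℝ k (fun y => (A y).adjugate i j) u := by
  simp only [Matrix.adjugate_apply]
  refine cd_det fun r s => ?_
  by_cases h : r = j
  · subst h
    simp only [Matrix.updateRow_self]
    exact contDiffAt_const
  · simp only [Matrix.updateRow_ne h]
    exact hA r s

theorem cd_inv {A : Coord d → Matrix (Fin d) (Fin d) ℝ}
    (hA : ∀ i j, ContDiffAt ℝ k (fun y => A y i j) u) (hdet : (A u).det ≠ 0) (i j : Fin d) :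
    ContDiffAt ℝ k (fun y => (A y)⁻¹ i j) u := by
  simp only [Matrix.inv_def, Ring.inverse_eq_inv', Matrix.smul_apply, smul_eq_mul]
  exact ((cd_det hA).inv hdet).mul (cd_adj hA i j)

theorem cd_chr (b : H →L[ℝ] H →L[ℝ] ℝ) (hf : ContDiffAt ℝ n f u) (hk : k + 1 + 1 ≤ n)
    (hdet : (gram (ind b f) u).det ≠ 0) (v w : Coord d) :
    ContDiffAt ℝ k (fun y => chr (ind b f) y v w) u := by
  have hk1 : k ≤ k + 1 := le_self_add
  unfold chr raise
  have hg : ∀ v w, ContDiffAt ℝ (k + 1) (fun y => ind b f y v w) u := fun v w =>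
    cd_ind b hf hk v w
  have hconst : ∀ a : Fin d, ContDiffAt ℝ k (fun _ : Coord d => (ebasis a : Coord d)) u :=
    fun a => contDiffAt_const
  refine ContDiffAt.sum fun a _ => ?_
  have hcoef : ContDiffAt ℝ k (fun y : Coord d => (∑ l, (gram (ind b f) y)⁻¹ a l *
      ((1 / 2) * (fderiv ℝ (fun x => ind b f x w (ebasis l)) y v +
        fderiv ℝ (fun x => ind b f x v (ebasis l)) y w -
          fderiv ℝ (fun x => ind b f x v w) y (ebasis l))) : ℝ)) u := by
    refine ContDiffAt.sum fun l _ => ?_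
    refine ContDiffAt.mul ?_ ?_
    · exact cd_inv (fun i j => (hg _ _).of_le hk1) hdet a l
    · refine contDiffAt_const.mul ?_
      refine ((cd_dir (hg _ _) le_rfl v).add (cd_dir (hg _ _) le_rfl w)).sub
        (cd_dir (hg _ _) le_rfl _)
  exact hcoef.smul (hconst a)

theorem fderiv_ind (b : H →L[ℝ] H →L[ℝ] ℝ) (hf : ContDiffAt ℝ 2 f u) (v w t : Coord d) :
    fderiv ℝ (fun y => ind b f y v w) u t =
      b (dd f u t v) (fderiv ℝ f u w) + b (fderiv ℝ f u v) (dd f u t w) := by
  have h1 : ∀ w, DifferentiableAt ℝ (fun y => fderiv ℝ f y w) u := fun w =>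
    (cd_dir (k := 1) hf (by norm_num) w).differentiableAt (by norm_num)
  have h2 : HasFDerivAt (fun y => b (fderiv ℝ f y v)) (b.comp (fderiv ℝ (fun y => fderiv ℝ f y v) u)) u :=
    b.hasFDerivAt.comp u (h1 v).hasFDerivAt
  have h3 := h2.clm_apply (h1 w).hasFDerivAt
  unfold ind
  rw [h3.fderiv]
  simp [dd, add_comm]

theorem koszul (b : H →L[ℝ] H →L[ℝ] ℝ) (hb : ∀ x y, b x y = b y x) (hf : ContDiffAt ℝ 2 f u)
    (hdet : (gram (ind b f) u).det ≠ 0) (v w t : Coord d) :
    b (fderiv ℝ f u (chr (ind b f) u v w)) (fderiv ℝ f u t) = b (dd f u v w) (fderiv ℝ f u t) := by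
  let L : Coord d →ₗ[ℝ] ℝ := (b (dd f u v w)).toLinearMap ∘ₗ (fderiv ℝ f u).toLinearMap
  have h1 : chr (ind b f) u v w = raise (ind b f) u fun l => L (ebasis l) := by
    unfold chr
    congr 1
    funext l
    rw [fderiv_ind b hf, fderiv_ind b hf, fderiv_ind b hf]
    have e1 : b (fderiv ℝ f u w) (dd f u v (ebasis l)) = b (fderiv ℝ f u w) (dd f u (ebasis l) v) := by
      rw [dd_symm hf]
    have e2 : dd f u w v = dd f u v w := dd_symm hf _ _
    have e3 : b (fderiv ℝ f u v) (dd f u w (ebasis l)) = b (fderiv ℝ f u v) (dd f u (ebasis l) w) := by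
      rw [dd_symm hf]
    have e4 : b (dd f u (ebasis l) v) (fderiv ℝ f u w) = b (fderiv ℝ f u w) (dd f u (ebasis l) v) :=
      hb _ _
    have e5 : L (ebasis l) = b (dd f u v w) (fderiv ℝ f u (ebasis l)) := rfl
    rw [e1, e2, e3, e4, e5]
    ring
  have h2 := raise_spec (ind b f) u (fun v w => hb _ _) (fun v v' w => by simp [ind])
    (fun a v w => by simp [ind]) hdet L t
  rw [← h1] at h2
  exact h2

theorem sff_orth (b : H →L[ℝ] H →L[ℝ] ℝ) (hb : ∀ x y, b x y = b y x) (hf : ContDiffAt ℝ 2 f u)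
    (hdet : (gram (ind b f) u).det ≠ 0) (v w t : Coord d) :
    b (sff b f u v w) (fderiv ℝ f u t) = 0 := by
  unfold sff
  rw [map_sub, sub_apply, koszul b hb hf hdet, sub_self]

theorem gauss (b : H →L[ℝ] H →L[ℝ] ℝ) (hb : ∀ x y, b x y = b y x) (hf : ContDiffAt ℝ 3 f u)
    (hdet : (gram (ind b f) u).det ≠ 0) (v w z t : Coord d) :
    b (fderiv ℝ f u (curv (ind b f) u v w z)) (fderiv ℝ f u t) =
      b (sff b f u w z) (sff b f u v t) - b (sff b f u v z) (sff b f u w t) := by
  have hf2 : ContDiffAt ℝ 2 f u := hf.of_le (by norm_num)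
  -- the orthogonality relation holds near `u`
  have hnear : ∀ᶠ x in 𝓝 u, ContDiffAt ℝ 2 f x := hf2.eventually (by simp)
  have hdetnear : ∀ᶠ x in 𝓝 u, (gram (ind b f) x).det ≠ 0 := by
    have hc : ContinuousAt (fun x => (gram (ind b f) x).det) u :=
      (cd_det (k := 1) fun i j => cd_ind b hf2 (by norm_num) _ _).continuousAt
    exact hc.eventually_ne hdet
  have horth : ∀ w z t, (fun x => b (sff b f x w z) (fderiv ℝ f x t)) =ᶠ[𝓝 u] fun _ => 0 := by
    intro w z t
    filter_upwards [hnear, hdetnear] with x hx1 hx2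
    exact sff_orth b hb hx1 hx2 w z t
  -- differentiate it
  have hdiffdd : ∀ w z, DifferentiableAt ℝ (fun y => dd f y w z) u := fun w z =>
    (cd_dir (k := 1) (cd_dir (k := 2) hf (by norm_num) z) (by norm_num) w).differentiableAt
      (by norm_num)
  have hdiffchr : ∀ w z, DifferentiableAt ℝ (fun y => chr (ind b f) y w z) u := fun w z =>
    (cd_chr (k := 1) b hf (by norm_num) hdet w z).differentiableAt (by norm_num)
  have hdiff1 : ∀ w, DifferentiableAt ℝ (fun y => fderiv ℝ f y w) u := fun w =>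
    (cd_dir (k := 1) hf2 (by norm_num) w).differentiableAt (by norm_num)
  have hdiff0 : DifferentiableAt ℝ (fderiv ℝ f) u :=
    (hf2.fderiv_right (m := 1) (by norm_num)).differentiableAt (by norm_num)
  have hsff : ∀ w z, HasFDerivAt (fun y => sff b f y w z)
      (fderiv ℝ (fun y => dd f y w z) u - ((fderiv ℝ f u).comp
        (fderiv ℝ (fun y => chr (ind b f) y w z) u) +
          (fderiv ℝ (fderiv ℝ f) u).flip (chr (ind b f) u w z))) u := by
    intro w z
    unfold sff
    exact (hdiffdd w z).hasFDerivAt.sub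
      (hdiff0.hasFDerivAt.clm_apply (hdiffchr w z).hasFDerivAt)
  have hddapp : ∀ v w, fderiv ℝ (fderiv ℝ f) u v w = dd f u v w := by
    intro v w
    unfold dd
    rw [fderiv_clm_apply hdiff0 (differentiableAt_const w)]
    simp
  have hmain : ∀ v w z t,
      b (fderiv ℝ (fun y => dd f y w z) u v) (fderiv ℝ f u t)
        - b (fderiv ℝ f u (fderiv ℝ (fun y => chr (ind b f) y w z) u v)) (fderiv ℝ f u t)
        - b (fderiv ℝ f u (chr (ind b f) u v (chr (ind b f) u w z))) (fderiv ℝ f u t)
        + b (sff b f u w z) (sff b f u v t) = 0 := by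
    intro v w z t
    have h1 : HasFDerivAt (fun x => b (sff b f x w z)) _ u := b.hasFDerivAt.comp u (hsff w z)
    have h2 := h1.clm_apply (hdiff1 t).hasFDerivAt
    have h3 := h2.fderiv
    rw [(horth w z t).fderiv_eq] at h3
    have h4 := congrArg (fun T => T v) h3
    simp only [fderiv_fun_const, Pi.zero_apply, zero_apply,
      add_apply, ContinuousLinearMap.comp_apply,
      ContinuousLinearMap.flip_apply, sub_apply, map_sub, map_add] at h4
    rw [hddapp] at h4
    have h5 : b (sff b f u w z) (fderiv ℝ (fun y => fderiv ℝ f y t) u v) =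
        b (sff b f u w z) (sff b f u v t) := by
      have : sff b f u v t = dd f u v t - fderiv ℝ f u (chr (ind b f) u v t) := rfl
      rw [this, map_sub, sff_orth b hb hf2 hdet, sub_zero]
      rfl
    have h6 := koszul b hb hf2 hdet v (chr (ind b f) u w z) t
    rw [h5, ← h6] at h4
    linarith
  have hthird : fderiv ℝ (fun y => dd f y w z) u v = fderiv ℝ (fun y => dd f y v z) u w :=
    dd_symm (cd_dir (k := 2) hf (by norm_num) z) v w
  have e1 := hmain v w z t
  have e2 := hmain w v z t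
  rw [hthird] at e1
  unfold curv
  simp only [map_add, map_sub, add_apply, sub_apply]
  linarith

end Gauss

end

end Pool.Agent.W_MP_061f3a_gt
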