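import Mathlib
import Pool.Agent.W_MP_061f3a_gt.Brk
import Pool.Agent.W_MP_061f3a_gt.Gauss
import Pool.Agent.W_MP_061f3a_gt.Fin

open scoped Topology ContDiff Matrix Matrix.Norms.Elementwise

set_option maxSynthPendingDepth 3

namespace Pool.Agent.W_MP_061f3a_gt

noncomputable section

variable {m : ℕ} {c ε : ℝ}

/-- the metric as a bilinear map -/
def bl (m : ℕ) (c ε : ℝ) : Mat m →ₗ[ℝ] Mat m →ₗ[ℝ] ℝ :=
  LinearMap.mk₂ ℝ (metric c ε)
    (fun X Y Z => by unfold metric; rw [add_mul, Matrix.trace_add, Complex.add_re]; ring)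
    (fun r X Y => by
      unfold metric
      rw [Matrix.smul_mul, Matrix.trace_smul, Complex.smul_re, smul_eq_mul, smul_eq_mul]; ring)
    (fun X Y Z => by unfold metric; rw [mul_add, Matrix.trace_add, Complex.add_re]; ring)
    (fun r X Y => by
      unfold metric
      rw [Matrix.mul_smul, Matrix.trace_smul, Complex.smul_re, smul_eq_mul, smul_eq_mul]; ring)

/-- a bilinear map on a finite dimensional space as a continuous one -/
def toC₂ {V W : Type*} [NormedAddCommGroup V] [NormedSpace ℝ V] [FiniteDimensional ℝ V]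
    [NormedAddCommGroup W] [NormedSpace ℝ W] (B : V →ₗ[ℝ] V →ₗ[ℝ] W) : V →L[ℝ] V →L[ℝ] W :=
  LinearMap.toContinuousLinearMap
    ((LinearMap.toContinuousLinearMap : (V →ₗ[ℝ] W) ≃ₗ[ℝ] (V →L[ℝ] W)).toLinearMap ∘ₗ B)

theorem toC₂_apply {V W : Type*} [NormedAddCommGroup V] [NormedSpace ℝ V] [FiniteDimensional ℝ V]
    [NormedAddCommGroup W] [NormedSpace ℝ W] (B : V →ₗ[ℝ] V →ₗ[ℝ] W) (x y : V) :
    toC₂ B x y = B x y := rfl

/-- the metric as a continuous bilinear map -/
def bc (m : ℕ) (c ε : ℝ) := toC₂ (bl m c ε)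

theorem bc_apply (X Y : Mat m) : bc m c ε X Y = metric c ε X Y := rfl

theorem ind_eq {d : ℕ} (f : Coord d → Mat m) : indMetric c ε f = ind (bc m c ε) f := rfl

theorem hasFDeriv_bilin {V W E : Type*} [NormedAddCommGroup V] [NormedSpace ℝ V]
    [FiniteDimensional ℝ V] [NormedAddCommGroup W] [NormedSpace ℝ W] [NormedAddCommGroup E]
    [NormedSpace ℝ E] (B : V →ₗ[ℝ] V →ₗ[ℝ] W) {a b : E → V} {u : E}
    (ha : DifferentiableAt ℝ a u) (hb : DifferentiableAt ℝ b u) :
    DifferentiableAt ℝ (fun x => B (a x) (b x)) u ∧ ∀ v,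
      fderiv ℝ (fun x => B (a x) (b x)) u v =
        B (fderiv ℝ a u v) (b u) + B (a u) (fderiv ℝ b u v) := by
  have h1 : HasFDerivAt (fun y => toC₂ B (a y)) ((toC₂ B).comp (fderiv ℝ a u)) u :=
    (toC₂ B).hasFDerivAt.comp u ha.hasFDerivAt
  have h2 := h1.clm_apply hb.hasFDerivAt
  have h3 : (fun x => B (a x) (b x)) = fun x => toC₂ B (a x) (b x) := rfl
  refine ⟨h2.differentiableAt, fun v => ?_⟩
  rw [h3, h2.fderiv]
  simp only [add_apply, ContinuousLinearMap.comp_apply, ContinuousLinearMap.flip_apply, toC₂_apply]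
  rw [add_comm]

/-- the adjoint as a continuous linear map -/
def ac (m : ℕ) (ε : ℝ) : Mat m →L[ℝ] Mat m :=
  LinearMap.toContinuousLinearMap
    { toFun := adj ε
      map_add' := adj_add
      map_smul' := fun r X => adj_real_smul r X }

theorem ac_apply (X : Mat m) : ac m ε X = adj ε X := rfl

theorem fderiv_add_gen {W E : Type*} [NormedAddCommGroup W] [NormedSpace ℝ W]
    [NormedAddCommGroup E] [NormedSpace ℝ E] {a b : E → W} {u : E}
    (ha : DifferentiableAt ℝ a u) (hb : DifferentiableAt ℝ b u) (v : E) :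
    fderiv ℝ (fun x => a x + b x) u v = fderiv ℝ a u v + fderiv ℝ b u v := by
  rw [fderiv_fun_add ha hb]
  rfl

variable {d : ℕ}

theorem fderiv_mulMat {a b : Coord d → Mat m} {u : Coord d} (ha : DifferentiableAt ℝ a u)
    (hb : DifferentiableAt ℝ b u) (v : Coord d) :
    fderiv ℝ (fun x => a x * b x) u v = fderiv ℝ a u v * b u + a u * fderiv ℝ b u v :=
  (hasFDeriv_bilin (LinearMap.mul ℝ (Mat m)) ha hb).2 v

theorem diff_mulMat {a b : Coord d → Mat m} {u : Coord d} (ha : DifferentiableAt ℝ a u)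
    (hb : DifferentiableAt ℝ b u) : DifferentiableAt ℝ (fun x => a x * b x) u :=
  (hasFDeriv_bilin (LinearMap.mul ℝ (Mat m)) ha hb).1

theorem fderiv_adj {a : Coord d → Mat m} {u : Coord d} (ha : DifferentiableAt ℝ a u)
    (v : Coord d) : fderiv ℝ (fun x => adj ε (a x)) u v = adj ε (fderiv ℝ a u v) := by
  have h1 : HasFDerivAt (fun y => ac m ε (a y)) ((ac m ε).comp (fderiv ℝ a u)) u :=
    (ac m ε).hasFDerivAt.comp u ha.hasFDerivAt
  have h3 : (fun x => adj ε (a x)) = fun x => ac m ε (a x) := rfl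
  rw [h3, h1.fderiv]
  rfl

variable {f : Coord d → Mat m} {u : Coord d}

theorem idem_of_mem (hε : ε = 1 ∨ ε = -1) {P : Mat m} (hP : P ∈ Grass m ε) :
    P * P = P ∧ adj ε P = P := by
  obtain ⟨g, h, H⟩ := exists_fr hε hP
  exact ⟨H.idem, H.adjP hε⟩

theorem deriv_rel (hε : ε = 1 ∨ ε = -1) (hmem : ∀ x, f x ∈ Grass m ε)
    (hd : DifferentiableAt ℝ f u) (v : Coord d) :
    fderiv ℝ f u v * f u + f u * fderiv ℝ f u v = fderiv ℝ f u v ∧
      adj ε (fderiv ℝ f u v) = fderiv ℝ f u v := by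
  constructor
  · have h1 : (fun x => f x * f x) = f := funext fun x => (idem_of_mem hε (hmem x)).1
    have h2 := fderiv_mulMat hd hd v
    rw [h1] at h2
    exact h2.symm
  · have h1 : (fun x => adj ε (f x)) = f := funext fun x => (idem_of_mem hε (hmem x)).2
    have h2 := fderiv_adj (ε := ε) hd v
    rw [h1] at h2
    exact h2.symm

theorem deriv_mem (hε : ε = 1 ∨ ε = -1) (hmem : ∀ x, f x ∈ Grass m ε)
    (hd : DifferentiableAt ℝ f u) (v : Coord d) : fderiv ℝ f u v ∈ Tan ε (f u) := by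
  obtain ⟨h1, h2⟩ := deriv_rel hε hmem hd v
  exact ⟨h2, by rw [add_comm]; exact h1⟩

theorem second_rel (hε : ε = 1 ∨ ε = -1) (hmem : ∀ x, f x ∈ Grass m ε)
    (hf : ContDiffAt ℝ 2 f u) (v w : Coord d) :
    f u * dd f u v w + dd f u v w * f u + fderiv ℝ f u v * fderiv ℝ f u w +
        fderiv ℝ f u w * fderiv ℝ f u v = dd f u v w ∧
      adj ε (dd f u v w) = dd f u v w := by
  have hnear : ∀ᶠ x in 𝓝 u, DifferentiableAt ℝ f x := by
    have h := (hf.of_le (m := 1) (by norm_num)).eventually (by simp)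
    filter_upwards [h] with x hx
    exact hx.differentiableAt (by norm_num)
  have hd : DifferentiableAt ℝ f u := hf.differentiableAt (by norm_num)
  have hd1 : DifferentiableAt ℝ (fun x => fderiv ℝ f x w) u :=
    (cd_dir (k := 1) hf (by norm_num) w).differentiableAt (by norm_num)
  constructor
  · have h1 : (fun x => fderiv ℝ f x w * f x + f x * fderiv ℝ f x w) =ᶠ[𝓝 u]
        fun x => fderiv ℝ f x w := by
      filter_upwards [hnear] with x hx
      exact (deriv_rel hε hmem hx w).1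
    have h2 := h1.fderiv_eq (𝕜 := ℝ)
    have h3 := DFunLike.congr_fun h2 v
    have h5 : fderiv ℝ (fun x => fderiv ℝ f x w * f x + f x * fderiv ℝ f x w) u v =
        fderiv ℝ (fun x => fderiv ℝ f x w * f x) u v + fderiv ℝ (fun x => f x * fderiv ℝ f x w) u v := by
      exact fderiv_add_gen (diff_mulMat hd1 hd) (diff_mulMat hd hd1) v
    rw [h5, fderiv_mulMat hd1 hd, fderiv_mulMat hd hd1] at h3
    have h4 : fderiv ℝ (fun x => fderiv ℝ f x w) u v = dd f u v w := rfl
    rw [h4] at h3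
    calc f u * dd f u v w + dd f u v w * f u + fderiv ℝ f u v * fderiv ℝ f u w +
        fderiv ℝ f u w * fderiv ℝ f u v
        = dd f u v w * f u + fderiv ℝ f u w * fderiv ℝ f u v +
          (fderiv ℝ f u v * fderiv ℝ f u w + f u * dd f u v w) := by abel
      _ = _ := h3
  · have h1 : (fun x => adj ε (fderiv ℝ f x w)) =ᶠ[𝓝 u] fun x => fderiv ℝ f x w := by
      filter_upwards [hnear] with x hx
      exact (deriv_rel hε hmem hx w).2
    have h2 := h1.fderiv_eq (𝕜 := ℝ)
    have h3 := DFunLike.congr_fun h2 v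
    rw [fderiv_adj hd1] at h3
    exact h3

theorem low_add {g h : Mat m} (X Y : Mat m) : low g h (X + Y) = low g h X + low g h Y := by
  unfold low
  rw [mul_add, add_mul]
  rfl

theorem low_smul {g h : Mat m} (r : ℝ) (X : Mat m) : low g h (r • X) = r • low g h X := by
  unfold low
  rw [Matrix.mul_smul, Matrix.smul_mul]
  rfl

theorem metric_add_left (X Y Z : Mat m) :
    metric c ε (X + Y) Z = metric c ε X Z + metric c ε Y Z := by
  rw [← bc_apply, ← bc_apply, ← bc_apply, map_add]; rfl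

theorem metric_sub_left (X Y Z : Mat m) :
    metric c ε (X - Y) Z = metric c ε X Z - metric c ε Y Z := by
  rw [← bc_apply, ← bc_apply, ← bc_apply, map_sub]; rfl

theorem metric_smul_left (r : ℝ) (X Z : Mat m) :
    metric c ε (r • X) Z = r * metric c ε X Z := by
  rw [← bc_apply, ← bc_apply, map_smul]; rfl

theorem metric_neg_left (X Z : Mat m) :
    metric c ε (-X) Z = -metric c ε X Z := by
  rw [← bc_apply, ← bc_apply, map_neg]; rfl

/-- every tangent vector of the Grassmannian is tangent plus normal to the hypersurface -/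
theorem decomp (hm : 3 ≤ m) (hε : ε = 1 ∨ ε = -1)
    {f : Coord (4 * m - 1) → Mat m} {u : Coord (4 * m - 1)}
    (hinj : Function.Injective (fderiv ℝ f u)) (hmem : ∀ x, f x ∈ Grass m ε)
    (hd : DifferentiableAt ℝ f u) {N : Mat m} (hN : N ∈ Tan ε (f u))
    (hunit : metric c ε N N = 1) (hnor : ∀ v, metric c ε N (fderiv ℝ f u v) = 0)
    {Z : Mat m} (hZ : Z ∈ Tan ε (f u)) : ∃ v, ∃ s : ℝ, Z = fderiv ℝ f u v + s • N := by
  obtain ⟨g, h, H⟩ := exists_fr hε (hmem u)
  let Ψ : (Coord (4 * m - 1) × ℝ) →ₗ[ℝ] Matrix (Fin m) (Fin 2) ℂ :=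
    { toFun := fun p => low g h (fderiv ℝ f u p.1 + p.2 • N)
      map_add' := by
        intro p q
        rw [← low_add]
        congr 1
        simp only [Prod.fst_add, Prod.snd_add, map_add, add_smul]
        abel
      map_smul' := by
        intro r p
        rw [RingHom.id_apply, ← low_smul]
        congr 1
        simp only [Prod.smul_fst, Prod.smul_snd, map_smul, smul_add, smul_smul, smul_eq_mul] }
  have hΨ : Function.Injective Ψ := by
    rw [injective_iff_map_eq_zero]
    intro p hp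
    have hmemp : fderiv ℝ f u p.1 + p.2 • N ∈ Tan ε (f u) :=
      Tan.add (deriv_mem hε hmem hd _) (Tan.smul _ hN)
    have h1 := tv_low hε H hmemp
    have h2 : low g h (fderiv ℝ f u p.1 + p.2 • N) = 0 := hp
    rw [h2] at h1
    have h3 : fderiv ℝ f u p.1 + p.2 • N = 0 := by
      rw [h1]; unfold tv; simp
    have h4 : metric c ε (fderiv ℝ f u p.1 + p.2 • N) N = p.2 := by
      rw [metric_add_left, metric_smul_left, hunit, metric_comm, hnor]
      ring
    have h5 : p.2 = 0 := by
      rw [← h4, h3]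
      unfold metric
      simp
    rw [h5, zero_smul, add_zero] at h3
    have h6 : p.1 = 0 := hinj (by rw [h3, map_zero])
    exact Prod.ext h6 h5
  have hfin : Module.finrank ℝ (Coord (4 * m - 1) × ℝ) =
      Module.finrank ℝ (Matrix (Fin m) (Fin 2) ℂ) := by
    rw [Module.finrank_prod, finrank_euclideanSpace, Module.finrank_self, Module.finrank_matrix,
      Complex.finrank_real_complex]
    simp only [Fintype.card_fin]
    omega
  have hsurj : Function.Surjective Ψ :=
    (LinearMap.injective_iff_surjective_of_finrank_eq_finrank hfin).mp hΨ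
  obtain ⟨p, hp⟩ := hsurj (low g h Z)
  refine ⟨p.1, p.2, ?_⟩
  have hmemp : fderiv ℝ f u p.1 + p.2 • N ∈ Tan ε (f u) :=
    Tan.add (deriv_mem hε hmem hd _) (Tan.smul _ hN)
  have h1 := tv_low hε H hmemp
  have h2 := tv_low hε H hZ
  have h3 : low g h (fderiv ℝ f u p.1 + p.2 • N) = low g h Z := hp
  rw [h2, h1, h3]

end

end Pool.Agent.W_MP_061f3a_gt
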