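import Mathlib
import Pool.Agent.W_MP_061f3a_gt.Local

open scoped Topology ContDiff Matrix Matrix.Norms.Elementwise ComplexConjugate

set_option maxSynthPendingDepth 3

namespace Pool.Agent.W_MP_061f3a_gt

noncomputable section

theorem exists_kernel {m : ℕ} (hm : 3 ≤ m) (B : Matrix (Fin m) (Fin 2) ℂ) :
    ∃ e : Fin m → ℂ, e ≠ 0 ∧ ∀ j, ∑ i, conj (e i) * B i j = 0 := by
  have h1 : Module.finrank ℂ (Fin 2 → ℂ) < Module.finrank ℂ (Fin m → ℂ) := by
    simp only [Module.finrank_fin_fun]
    omega
  have h2 := LinearMap.ker_ne_bot_of_finrank_lt (f := (Bᴴ).mulVecLin) h1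
  obtain ⟨e, he, he0⟩ := (Submodule.ne_bot_iff _).mp h2
  refine ⟨e, he0, fun j => ?_⟩
  have h3 : (Bᴴ).mulVec e = 0 := he
  have h4 := congrArg conj (congrFun h3 j)
  simp only [Matrix.mulVec, dotProduct, Matrix.conjTranspose_apply, map_sum, map_mul,
    Pi.zero_apply, map_zero, Complex.star_def, Complex.conj_conj] at h4
  rw [← h4]
  exact Finset.sum_congr rfl fun i _ => mul_comm _ _

theorem local_main {m : ℕ} (hm : 3 ≤ m) {c ε : ℝ} (hε : ε = 1 ∨ ε = -1) (hc : 0 < c)
    {f : Coord (4 * m - 1) → Mat m} {u : Coord (4 * m - 1)}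
    (hf : ContDiffAt ℝ 3 f u) (hinj : Function.Injective (fderiv ℝ f u))
    (hmem : ∀ x, f x ∈ Grass m ε) {N q : Mat m} (hN : N ∈ Tan ε (f u))
    (hunit : metric c ε N N = 1) (hnor : ∀ v, metric c ε N (fderiv ℝ f u v) = 0)
    (hq : q ∈ Quat ε (f u)) (hq2 : ∀ X ∈ Tan ε (f u), Jop q (Jop q X) = -X)
    {ξ : Coord (4 * m - 1)} (hξ : ξ = tang c ε f u (-Jop q N))
    (hR : ∀ X Y, indMetric c ε f u X ξ = 0 → indMetric c ε f u Y ξ = 0 →
      curv (indMetric c ε f) u X Y ξ = 0) : False := by
  have hf2 : ContDiffAt ℝ 2 f u := hf.of_le (by norm_num)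
  have hd : DifferentiableAt ℝ f u := hf.differentiableAt (by norm_num)
  obtain ⟨g, h, H⟩ := exists_fr hε (hmem u)
  have hPP := H.idem
  have hPa := H.adjP hε
  have hT : ∀ v, fderiv ℝ f u v ∈ Tan ε (f u) := fun v => deriv_mem hε hmem hd v
  have hsymm : ∀ X Y : Mat m, bc m c ε X Y = bc m c ε Y X := fun X Y => metric_comm X Y
  have mzero : ∀ X : Mat m, metric c ε 0 X = 0 := by
    intro X; unfold metric; simp
  have hnor' : ∀ v, metric c ε (fderiv ℝ f u v) N = 0 := fun v => by
    rw [metric_comm]; exact hnor v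
  -- the metric of the hypersurface is non-degenerate
  have hdet : (gram (ind (bc m c ε) f) u).det ≠ 0 := by
    intro hdet
    obtain ⟨a, ha, ha0⟩ := Matrix.exists_mulVec_eq_zero_iff.mpr hdet
    apply ha
    set v : Coord (4 * m - 1) := ∑ k, a k • ebasis k with hv
    have hv1 : ∀ X : Mat m, metric c ε (fderiv ℝ f u v) X =
        ∑ k, a k * metric c ε (fderiv ℝ f u (ebasis k)) X := by
      intro X
      have : metric c ε (fderiv ℝ f u v) X = bc m c ε (fderiv ℝ f u v) X := rfl
      rw [this, hsymm, hv, map_sum, map_sum]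
      refine Finset.sum_congr rfl fun k _ => ?_
      rw [map_smul, map_smul, smul_eq_mul, hsymm]
      rfl
    have hv2 : metric c ε (fderiv ℝ f u v) (fderiv ℝ f u v) = 0 := by
      rw [hv1]
      refine Finset.sum_eq_zero fun k _ => ?_
      rw [metric_comm, hv1]
      have h1 := congrFun ha0 k
      have h2 : ∑ l, a l * metric c ε (fderiv ℝ f u (ebasis l)) (fderiv ℝ f u (ebasis k)) = 0 := by
        rw [← (show (gram (ind (bc m c ε) f) u).mulVec a k = 0 from h1)]
        simp only [Matrix.mulVec, dotProduct]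
        refine Finset.sum_congr rfl fun l _ => ?_
        rw [metric_comm, mul_comm]
        rfl
      rw [h2, mul_zero]
    have hv3 : fderiv ℝ f u v = 0 := metric_tv_self hε hc H (hT v) hv2
    have hv4 : v = 0 := hinj (by rw [hv3, map_zero])
    funext i
    have hv5 : v i = a i := by
      rw [hv]
      simp only [ebasis, WithLp.ofLp_sum, WithLp.ofLp_smul, Finset.sum_apply, Pi.smul_apply,
        PiLp.single_apply, smul_eq_mul, mul_ite, mul_one, mul_zero,
        Finset.sum_ite_eq, Finset.mem_univ, if_true]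
    rw [← hv5, hv4]
    rfl
  -- tangential part
  have htang : ∀ Z t, metric c ε (fderiv ℝ f u (tang c ε f u Z)) (fderiv ℝ f u t) =
      metric c ε Z (fderiv ℝ f u t) := by
    intro Z t
    let L : Coord (4 * m - 1) →ₗ[ℝ] ℝ := (bc m c ε Z).toLinearMap ∘ₗ (fderiv ℝ f u).toLinearMap
    refine raise_spec (ind (bc m c ε) f) u (fun v w => hsymm _ _) (fun v v' w => ?_)
      (fun a v w => ?_) hdet L t
    · show metric c ε (fderiv ℝ f u (v + v')) (fderiv ℝ f u w) =
        metric c ε (fderiv ℝ f u v) (fderiv ℝ f u w) + metric c ε (fderiv ℝ f u v') (fderiv ℝ f u w)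
      rw [map_add]
      exact metric_add_left _ _ _
    · show metric c ε (fderiv ℝ f u (a • v)) (fderiv ℝ f u w) =
        a * metric c ε (fderiv ℝ f u v) (fderiv ℝ f u w)
      rw [map_smul]
      exact metric_smul_left _ _ _
  have hexact : ∀ Z ∈ Tan ε (f u), metric c ε Z N = 0 → fderiv ℝ f u (tang c ε f u Z) = Z := by
    intro Z hZ hZN
    obtain ⟨v, s, hv⟩ := decomp hm hε hinj hmem hd hN hunit hnor hZ
    have hs : s = 0 := by
      rw [hv, metric_add_left, metric_smul_left, hunit, hnor'] at hZN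
      linarith
    rw [hs, zero_smul, add_zero] at hv
    have h1 : metric c ε (fderiv ℝ f u (tang c ε f u Z - v))
        (fderiv ℝ f u (tang c ε f u Z - v)) = 0 := by
      have h2 := htang Z (tang c ε f u Z - v)
      rw [map_sub (fderiv ℝ f u) (tang c ε f u Z) v, metric_sub_left]
      rw [map_sub (fderiv ℝ f u) (tang c ε f u Z) v] at h2
      rw [h2]
      conv_lhs => rw [hv]
      rw [sub_self]
    have h3 := metric_tv_self hε hc H (hT _) h1
    rw [map_sub, sub_eq_zero] at h3
    rw [h3, ← hv]
  have horthN : ∀ Z ∈ Tan ε (f u), (∀ t, metric c ε Z (fderiv ℝ f u t) = 0) →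
      Z = metric c ε Z N • N := by
    intro Z hZ hZt
    obtain ⟨v, s, hv⟩ := decomp hm hε hinj hmem hd hN hunit hnor hZ
    have h1 : metric c ε (fderiv ℝ f u v) (fderiv ℝ f u v) = 0 := by
      have h2 := hZt v
      rw [hv, metric_add_left, metric_smul_left, hnor] at h2
      linarith
    have h3 := metric_tv_self hε hc H (hT _) h1
    rw [h3, zero_add] at hv
    rw [hv, metric_smul_left, hunit, mul_one]
  -- second fundamental form
  have hsffdef : ∀ v w, sff (bc m c ε) f u v w =
      dd f u v w - fderiv ℝ f u (chr (ind (bc m c ε) f) u v w) := fun v w => rfl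
  have hsff : ∀ v w, sff (bc m c ε) f u v w = sg (f u) (fderiv ℝ f u v) (fderiv ℝ f u w) +
      metric c ε (dd f u v w) N • N := by
    intro v w
    obtain ⟨h1, h2⟩ := second_rel hε hmem hf2 v w
    have h3 := sub_sg_mem hε hPP hPa (hT v) (hT w) h2 h1
    have h4 : sff (bc m c ε) f u v w - sg (f u) (fderiv ℝ f u v) (fderiv ℝ f u w) ∈ Tan ε (f u) := by
      have : sff (bc m c ε) f u v w - sg (f u) (fderiv ℝ f u v) (fderiv ℝ f u w) =
          (dd f u v w - sg (f u) (fderiv ℝ f u v) (fderiv ℝ f u w)) -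
            fderiv ℝ f u (chr (ind (bc m c ε) f) u v w) := by
        rw [hsffdef]
        abel
      rw [this]
      exact Tan.sub h3 (hT _)
    have h5 : ∀ t, metric c ε (sff (bc m c ε) f u v w -
        sg (f u) (fderiv ℝ f u v) (fderiv ℝ f u w)) (fderiv ℝ f u t) = 0 := by
      intro t
      rw [metric_sub_left, metric_sg (hT v) (hT w) (hT t), sub_zero]
      exact sff_orth (bc m c ε) hsymm hf2 hdet v w t
    have h6 := horthN _ h4 h5
    have h7 : metric c ε (sff (bc m c ε) f u v w -
        sg (f u) (fderiv ℝ f u v) (fderiv ℝ f u w)) N = metric c ε (dd f u v w) N := by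
      rw [metric_sub_left, metric_sg (hT v) (hT w) hN, sub_zero]
      rw [hsffdef, metric_sub_left, hnor', sub_zero]
    rw [h7] at h6
    rw [← h6]
    abel
  -- Gauss equation
  have hgauss : ∀ v w z t,
      metric c ε (fderiv ℝ f u (curv (indMetric c ε f) u v w z)) (fderiv ℝ f u t) =
        metric c ε (brk (fderiv ℝ f u v) (fderiv ℝ f u w) (fderiv ℝ f u z)) (fderiv ℝ f u t) +
          metric c ε (dd f u w z) N * metric c ε (dd f u v t) N -
          metric c ε (dd f u v z) N * metric c ε (dd f u w t) N := by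
    intro v w z t
    have h1 := gauss (bc m c ε) hsymm hf hdet v w z t
    have h2 : ∀ (X Y Z W : Mat m) (a b : ℝ), X ∈ Tan ε (f u) → Y ∈ Tan ε (f u) →
        Z ∈ Tan ε (f u) → W ∈ Tan ε (f u) →
        metric c ε (sg (f u) X Y + a • N) (sg (f u) Z W + b • N) =
          metric c ε (sg (f u) X Y) (sg (f u) Z W) + a * b := by
      intro X Y Z W a b hX hY hZ hW
      rw [metric_add_left, metric_smul_left, metric_comm (sg (f u) X Y), metric_add_left,
        metric_smul_left, metric_comm N (sg (f u) X Y), metric_sg hX hY hN,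
        metric_comm N, metric_add_left, metric_smul_left, metric_sg hZ hW hN, hunit,
        metric_comm (sg (f u) Z W)]
      ring
    have h3 : ∀ X Y : Mat m, bc m c ε X Y = metric c ε X Y := fun X Y => rfl
    rw [h3, h3, h3, hsff, hsff, hsff, hsff, h2 _ _ _ _ _ _ (hT _) (hT _) (hT _) (hT _),
      h2 _ _ _ _ _ _ (hT _) (hT _) (hT _) (hT _)] at h1
    have h4 := metric_sg_sg (c := c) hPP (hT v) (hT w) (hT z)
      (V := fderiv ℝ f u t)
    refine h1.trans ?_
    rw [← h4]
    ring
  -- the structure vector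
  have hJT : Jop q N ∈ Tan ε (f u) := Jop_mem hε hq hN
  have hΞT : -Jop q N ∈ Tan ε (f u) := Tan.neg hJT
  have hΞN : metric c ε (-Jop q N) N = 0 := by
    rw [metric_neg_left, metric_Jop_self, neg_zero]
  have hdξ : fderiv ℝ f u ξ = -Jop q N := by
    rw [hξ]; exact hexact _ hΞT hΞN
  -- matrices
  set B := low g h N with hB
  have hNB : N = tv ε g h B := tv_low hε H hN
  obtain ⟨Q, hQ⟩ := low_Jop (ε := ε) H hq B
  set B' := B * Q with hB'
  have hJB : Jop q N = tv ε g h B' := by
    have h1 := tv_low hε H hJT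
    rw [h1]
    congr 1
    rw [← hQ, ← hNB]
  have hΞB : -Jop q N = tv ε g h (-B') := by
    have h1 : tv ε g h (-B') = tv ε g h ((-1 : ℝ) • B') := by
      rw [neg_one_smul]
    rw [h1, tv_smul, neg_one_smul, hJB]
  obtain ⟨e, he0, he⟩ := exists_kernel hm B
  have he' : ∀ j, ∑ i, conj (e i) * B' i j = 0 := by
    intro j
    have : ∑ i, conj (e i) * B' i j = ∑ k, (∑ i, conj (e i) * B i k) * Q k j := by
      rw [hB']
      simp only [Matrix.mul_apply, Finset.mul_sum, Finset.sum_mul]
      rw [Finset.sum_comm]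
      exact Finset.sum_congr rfl fun k _ => Finset.sum_congr rfl fun i _ => by ring
    rw [this]
    simp [he]
  have hker : ∀ (x : Fin 2 → ℂ) (C : Matrix (Fin m) (Fin 2) ℂ),
      (∀ j, ∑ i, conj (e i) * C i j = 0) → (Matrix.vecMulVec e (star x))ᴴ * C = 0 := by
    intro x C hC
    ext k j
    simp only [Matrix.mul_apply, Matrix.conjTranspose_apply, Matrix.vecMulVec_apply, Pi.star_apply,
      star_mul', star_star, Matrix.zero_apply]
    calc ∑ i, star (e i) * x k * C i j = x k * ∑ i, conj (e i) * C i j := by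
          rw [Finset.mul_sum]
          exact Finset.sum_congr rfl fun i _ => by simp only [Complex.star_def]; ring
      _ = 0 := by rw [hC, mul_zero]
  set tx : (Fin 2 → ℂ) → Mat m := fun x => tv ε g h (Matrix.vecMulVec e (star x)) with htx
  have htxT : ∀ x, tx x ∈ Tan ε (f u) := fun x => tv_mem hε H _
  have htxN : ∀ x, metric c ε (tx x) N = 0 := by
    intro x
    rw [hNB, htx]
    simp only
    rw [metric_tv hε H, hker x B he]
    simp
  have htxΞ : ∀ x, metric c ε (tx x) (-Jop q N) = 0 := by
    intro x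
    rw [hΞB, htx]
    simp only
    rw [metric_tv hε H, Matrix.mul_neg, hker x B' he']
    simp
  have htxd : ∀ x, fderiv ℝ f u (tang c ε f u (tx x)) = tx x := fun x =>
    hexact _ (htxT x) (htxN x)
  have htxadd : ∀ x y, tx (x + y) = tx x + tx y := by
    intro x y
    rw [htx]
    simp only
    rw [← tv_add]
    congr 1
    ext i j
    simp only [Matrix.vecMulVec_apply, Pi.star_apply, Pi.add_apply, star_add, Matrix.add_apply]
    ring
  have htxsmul : ∀ (r : ℝ) x, tx (r • x) = r • tx x := by
    intro r x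
    rw [htx]
    simp only
    rw [← tv_smul]
    congr 1
    ext i j
    simp only [Matrix.vecMulVec_apply, Pi.star_apply, Pi.smul_apply, star_smul, star_trivial,
      Matrix.smul_apply, Complex.real_smul]
    ring
  set om : (Fin 2 → ℂ) → ℝ := fun x => metric c ε (dd f u (tang c ε f u (tx x)) ξ) N with hom
  have homadd : ∀ x y, om (x + y) = om x + om y := by
    intro x y
    have h1 : tang c ε f u (tx (x + y)) = tang c ε f u (tx x) + tang c ε f u (tx y) := by
      apply hinj
      rw [map_add, htxd, htxd, htxd, htxadd]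
    rw [hom]
    simp only
    rw [h1, ← metric_add_left]
    congr 1
    unfold dd
    rw [map_add]
  have homsmul : ∀ (r : ℝ) x, om (r • x) = r * om x := by
    intro r x
    have h1 : tang c ε f u (tx (r • x)) = r • tang c ε f u (tx x) := by
      apply hinj
      rw [map_smul, htxd, htxd, htxsmul]
    rw [hom]
    simp only
    rw [h1, ← metric_smul_left]
    congr 1
    unfold dd
    rw [map_smul]
  -- the norm of `e`
  set E : ℝ := ∑ i, Complex.normSq (e i) with hE
  have hE0 : E ≠ 0 := by
    intro h0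
    apply he0
    funext i
    have h1 := (Finset.sum_eq_zero_iff_of_nonneg (fun i _ => Complex.normSq_nonneg (e i))).mp h0 i
      (Finset.mem_univ _)
    exact Complex.normSq_eq_zero.mp h1
  have hs : ε * E ≠ 0 := by
    rcases hε with h | h <;> subst h <;> simpa using hE0
  have hEC : ∑ i, conj (e i) * e i = (E : ℂ) := by
    rw [hE, Complex.ofReal_sum]
    exact Finset.sum_congr rfl fun i _ => (Complex.normSq_eq_conj_mul_self).symm
  have hB0 : B' = 0 := by
    refine final_alg B B' (ε * E) hs om homadd homsmul ?_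
    intro x y hx hy
    set X := tang c ε f u (tx x)
    set Y := tang c ε f u (tx y)
    have hηX : indMetric c ε f u X ξ = 0 := by
      unfold indMetric
      rw [htxd, hdξ, htxΞ]
    have hηY : indMetric c ε f u Y ξ = 0 := by
      unfold indMetric
      rw [htxd, hdξ, htxΞ]
    have hcurv := hR X Y hηX hηY
    have hx' : metric c ε (dd f u X ξ) N = 0 := hx
    have hy' : metric c ε (dd f u Y ξ) N = 0 := hy
    have hbr : ∀ t, metric c ε (brk (tx x) (tx y) (-Jop q N)) (fderiv ℝ f u t) = 0 := by
      intro t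
      have h1 := hgauss X Y ξ t
      rw [hcurv, map_zero, mzero, hx', hy', htxd, htxd, hdξ] at h1
      linarith
    have hbr2 := horthN _ (brk_mem hε (htxT x) (htxT y) hΞT) hbr
    set τ := metric c ε (brk (tx x) (tx y) (-Jop q N)) N
    refine ⟨τ, fun r j => ?_⟩
    have hlow := congrArg (low g h) hbr2
    rw [low_smul, ← hB, hΞB, htx] at hlow
    simp only at hlow
    rw [low_brk H] at hlow
    have k1 : Matrix.vecMulVec e (star x) * (Matrix.vecMulVec e (star y))ᴴ * (-B') = 0 := by
      rw [Matrix.mul_assoc, Matrix.mul_neg, hker y B' he', neg_zero, Matrix.mul_zero]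
    have k2 : Matrix.vecMulVec e (star y) * (Matrix.vecMulVec e (star x))ᴴ * (-B') = 0 := by
      rw [Matrix.mul_assoc, Matrix.mul_neg, hker x B' he', neg_zero, Matrix.mul_zero]
    rw [Matrix.sub_mul, k1, k2, sub_zero, zero_sub] at hlow
    have hrj := congrFun (congrFun hlow r) j
    have hAB : ∀ (x y : Fin 2 → ℂ) k j,
        ((Matrix.vecMulVec e (star x))ᴴ * Matrix.vecMulVec e (star y)) k j =
          (E : ℂ) * (x k * conj (y j)) := by
      intro x y k j
      rw [← hEC, Finset.sum_mul, Matrix.mul_apply]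
      refine Finset.sum_congr rfl fun i _ => ?_
      simp only [Matrix.conjTranspose_apply, Matrix.vecMulVec_apply, Pi.star_apply,
        star_mul', Complex.star_def, Complex.conj_conj]
      ring
    simp only [Matrix.smul_apply, Matrix.neg_apply, Matrix.mul_apply (M := -B'),
      Matrix.sub_apply, hAB, smul_eq_mul, Complex.real_smul, Fin.sum_univ_two] at hrj
    rw [Fin.sum_univ_two, Fin.sum_univ_two, ← hrj]
    push_cast
    ring
  -- contradiction
  have hJ0 : Jop q N = 0 := by
    rw [hJB, hB0]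
    unfold tv
    simp
  have h1 := hq2 N hN
  rw [hJ0] at h1
  have h2 : N = 0 := by
    have : Jop q (0 : Mat m) = 0 := by unfold Jop; simp
    rw [this] at h1
    exact neg_eq_zero.mp h1.symm
  rw [h2, mzero] at hunit
  exact zero_ne_one hunit

end

end Pool.Agent.W_MP_061f3a_gt
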