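import Mathlib
import Pool.Agent.W_MP_061f3a_gt.Main

open scoped Topology ContDiff Manifold Matrix Matrix.Norms.Elementwise

set_option maxSynthPendingDepth 3

namespace Pool.Agent.W_MP_061f3a_gt

noncomputable section

theorem contDiffAt_mat {m d : ℕ} {f : Coord d → Mat m} {u : Coord d} {k : WithTop ℕ∞}
    (h : ∀ i j, ContDiffAt ℝ k (fun x => f x i j) u) : ContDiffAt ℝ k f u := by
  have h1 : ContDiffAt ℝ k (fun x => (fun i j => f x i j : Fin 2 ⊕ Fin m → Fin 2 ⊕ Fin m → ℂ)) u :=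
    contDiffAt_pi.2 fun i => contDiffAt_pi.2 fun j => h i j
  exact h1

variable {m : ℕ} {c ε : ℝ} {M : Type*} [TopologicalSpace M] {d : ℕ} [ChartedSpace (Coord d) M]

theorem contDiffAt_inChart {F : M → Mat m}
    {p : M} (h : ∀ i j, ContMDiffAt 𝓘(ℝ, Coord d) 𝓘(ℝ, ℂ) ∞ (fun x => F x i j) p) :
    ContDiffAt ℝ ∞ (inChart (d := d) F p) (extChartAt 𝓘(ℝ, Coord d) p p) := by
  refine contDiffAt_mat fun i j => ?_
  have h1 := (contMDiffAt_iff.mp (h i j)).2
  rw [show Set.range (𝓘(ℝ, Coord d)) = Set.univ from ModelWithCorners.range_eq_univ _,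
    contDiffWithinAt_univ] at h1
  exact h1

theorem inChart_self (F : M → Mat m) (p : M) :
    inChart (d := d) F p (extChartAt 𝓘(ℝ, Coord d) p p) = F p := by
  unfold inChart
  simp only [Function.comp_apply, extChartAt_to_inv]

theorem global_main {m : ℕ} (hm : 3 ≤ m) {c ε : ℝ} (hc : 0 < c) (hε : ε = 1 ∨ ε = -1)
    {M : Type*} [TopologicalSpace M] [ChartedSpace (Coord (4 * m - 1)) M]
    (F : M → Mat m) (hF : IsImmersion (d := 4 * m - 1) ε F) (p : M)
    (n : M → Mat m) (hn : IsUnitNormal (d := 4 * m - 1) c ε F n p)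
    (q : Fin 3 → Mat m) (hq : IsFrame ε (F p) q) (i : Fin 3) (κ μ ν : ℝ) :
    ¬ NullityAt c ε (inChart (d := 4 * m - 1) F p) (inChart (d := 4 * m - 1) n p) (q i) κ μ ν
      (extChartAt 𝓘(ℝ, Coord (4 * m - 1)) p p) := by
  intro H
  have e1 := inChart_self (d := 4 * m - 1) F p
  have e2 := inChart_self (d := 4 * m - 1) n p
  have hcd : ContDiffAt ℝ 3 (inChart (d := 4 * m - 1) F p)
      (extChartAt 𝓘(ℝ, Coord (4 * m - 1)) p p) :=
    (contDiffAt_inChart fun i j => (hF.smooth i j).contMDiffAt).of_le (by norm_cast)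
  refine local_main hm hε hc hcd
    (hF.inj p) (fun x => hF.mem _) (N := n p) (q := q i) ?_ hn.unit.self_of_nhds ?_ ?_ ?_ rfl ?_
  · rw [e1]; exact hn.tangent.self_of_nhds
  · intro v
    have h1 := hn.normal.self_of_nhds v
    rw [e2] at h1
    exact h1
  · rw [e1]; exact hq.1 i
  · rw [e1]; exact hq.2.1 i
  · intro X Y hX hY
    have h1 := H X Y
    unfold xiVec at h1
    rw [e2] at h1
    rw [h1, hX, hY, zero_smul, zero_smul, sub_zero]

end

end Pool.Agent.W_MP_061f3a_gt
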